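import Pool.Agent.H63.Quad.BDefs

set_option autoImplicit false

/-!
# Part B: the exact interface between the modules (each `def ... : Prop` is proved in its own module)

* `RootProps aa` : properties of the limit function `aa` (root of `FF a + 4 τ² a² = 1`).   [helper63]
* `CatSum` : the sum of the planar series.                                                [helper63]
* `SmallIdx` (B1) : `aN N k` is close to `1/12` for `k ≤ l N`, `l` small.                   [helper48]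
* `LimA aa` (B2) : `aN N n → aa τ` if `n / N → τ`.                                         [helper48]
* `ED`, `LB` : consequences of B1, B2 used in B4.                                          [helper48]
* `ModeConc` (B3).                                                                        [helper82]
* `Free` (B4) : the decomposition with free factors.                                       [helper36]
* `ALC` (B5a) : approximate log-convexity in the genus, from `Free`.                       [helper51]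
* `final` (B5b) : `ALC` and `ModeConc` give the theorem.                                   [helper51]
-/

namespace Pool.Agent.H63.Quad

open Finset Filter Topology Polynomial

/-- The sum `8 a + 12 ∑ 3^i Cat_{i+1} a^{i+2}` for `0 ≤ a ≤ 1/12`. -/
noncomputable def FF (a : ℝ) : ℝ := 4 * a + 2 / 3 * (1 - Real.sqrt (1 - 12 * a))

/-- The limit function: `aa τ ∈ (0, 1/12]` is the root of `FF a + 4 τ² a² = 1`; it is continuous. -/
structure RootProps (aa : ℝ → ℝ) : Prop where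
  pos : ∀ τ, 0 < aa τ
  le : ∀ τ, aa τ ≤ 1 / 12
  eq : ∀ τ, FF (aa τ) + 4 * τ ^ 2 * aa τ ^ 2 = 1
  lt : ∀ τ, 0 < τ → aa τ < 1 / 12
  cont : Continuous aa
  zero : aa 0 = 1 / 12
  anti : AntitoneOn aa (Set.Ici 0)
  /-- a smaller argument than the root gives a value `< 1`. -/
  below : ∀ τ b, 0 ≤ b → b < aa τ → FF b + 4 * τ ^ 2 * b ^ 2 < 1
  above : ∀ τ b, aa τ < b → b ≤ 1 / 12 → 1 < FF b + 4 * τ ^ 2 * b ^ 2
  /-- large arguments: `aa τ ≤ 1 / (2 τ)`. -/
  large : ∀ τ, 0 < τ → 2 * τ * aa τ ≤ 1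

/-- Planar series, partial sums: bounded by `FF` and converging to it below `1/12`. -/
structure CatSum : Prop where
  planar : ∀ n : ℕ, (2 * (n : ℝ) + 1) * (Qp n).coeff 0 = 3 ^ n * (catalan (n + 1) : ℝ)
  le : ∀ (a : ℝ) (K : ℕ), 0 ≤ a → a ≤ 1 / 12 →
    8 * a + 12 * ∑ i ∈ range K, ((2 * (i : ℝ) + 1) * (Qp i).coeff 0) * a ^ (i + 2) ≤ FF a
  lim : ∀ a : ℝ, 0 ≤ a → a ≤ 1 / 12 →
    Tendsto (fun K => 8 * a + 12 * ∑ i ∈ range K, ((2 * (i : ℝ) + 1) * (Qp i).coeff 0) * a ^ (i + 2))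
      atTop (𝓝 (FF a))

/-- (B1) For `k ≤ l N` the ratio is at least `c`, any given `c < 1/12`. -/
def SmallIdx : Prop := ∀ c : ℝ, c < 1 / 12 → ∃ l : ℝ, 0 < l ∧
  ∀ᶠ N : ℕ in atTop, ∀ k : ℕ, (k : ℝ) ≤ l * N → c < aN N k

/-- (B2) The limit of the ratios. -/
def LimA (aa : ℝ → ℝ) : Prop := ∀ (τ : ℝ), 0 < τ → ∀ n N : ℕ → ℕ, Tendsto N atTop atTop →
  Tendsto (fun i => (n i : ℝ) / N i) atTop (𝓝 τ) → Tendsto (fun i => aN (N i) (n i)) atTop (𝓝 (aa τ))

/-- Strict gap between the ratios at indices of order `N` and at small indices. -/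
def ED : Prop := ∀ l0 : ℝ, 0 < l0 → ∃ ρ : ℝ, 0 < ρ ∧ ρ < 1 ∧ ∃ l : ℝ, 0 < l ∧
  ∀ᶠ N : ℕ in atTop, ∀ k j : ℕ, l0 * N ≤ k → (j : ℝ) ≤ l * N → aN N k ≤ ρ * aN N j

/-- Lower bound for the ratios at indices of order `N`. -/
def LB : Prop := ∀ t : ℝ, 0 < t → ∃ c : ℝ, 0 < c ∧
  ∀ᶠ N : ℕ in atTop, ∀ k : ℕ, (k : ℝ) ≤ t * N → c ≤ aN N k

/-- (B3) concentration of the genus; `τ` is such that the typical genus is `θ n`. -/
def ModeConc (θ τ : ℝ) : Prop := ∀ N : ℕ → ℕ, Tendsto (fun n : ℕ => (n : ℝ) / (N n : ℝ)) atTop (𝓝 τ) →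
  ∀ ε : ℝ, 0 < ε → ∃ c : ℝ, 0 < c ∧ ∀ᶠ n : ℕ in atTop, ∀ g : ℕ, ε * n ≤ |(g : ℝ) - θ * n| →
    wN (N n) n g ≤ Real.exp (-c * n)

/-- (B4) Decomposition with free factors: `UU n` is a polynomial in `X` (genus variable `z`) and `Y`
(free factor), with nonnegative coefficients. The value at `X = z`, `Y = s (6 + x₀ z)` is exponentially
smaller than `Q_n(z)` for `s < 1`, uniformly for `n / N ∈ [t1, t2]`, `z = 1 / N²`, `x₀ = ⌊n/2⌋²`. -/
structure Free (UU : ℕ → Polynomial (Polynomial ℝ)) : Prop where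
  nonneg : ∀ n a b : ℕ, 0 ≤ ((UU n).coeff a).coeff b
  eval_eq : ∀ n : ℕ, (UU n).eval (C 6 + C (((n / 2 : ℕ) : ℝ) ^ 2) * X) = Qp n
  decay : ∀ t1 t2 s : ℝ, 0 < t1 → t1 < t2 → 0 < s → s < 1 → ∃ c : ℝ, 0 < c ∧
    ∀ᶠ N : ℕ in atTop, ∀ n : ℕ, t1 * N ≤ n → (n : ℝ) ≤ t2 * N →
      ((UU n).eval (C (s * (6 + ((n / 2 : ℕ) : ℝ) ^ 2 * (1 / (N : ℝ) ^ 2))))).eval (1 / (N : ℝ) ^ 2)
        ≤ Real.exp (-c * n) * yN N n

/-- (B5a) Approximate log-convexity in the genus. -/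
def ALC : Prop := ∀ t1 t2 : ℝ, 0 < t1 → t1 < t2 → ∃ K c : ℝ, 0 < K ∧ 0 < c ∧
  ∀ᶠ N : ℕ in atTop, ∀ n : ℕ, t1 * N ≤ n → (n : ℝ) ≤ t2 * N → ∀ g : ℕ,
    Real.exp (-c * n) ≤ wN N n (g + 1) →
      wN N n (g + 1) ^ 2 ≤ (1 + K / n) * (wN N n g * wN N n (g + 2))

end Pool.Agent.H63.Quad
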