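import Pool.Agent.H63.Quad.Reduce
import Pool.Agent.H48.Quad.B2
import Pool.Agent.H82.Quad.B3
import Pool.Agent.H36.Quad.FreeUU
import Pool.Agent.H51.Quad.ALC
import Pool.Agent.H51.Quad.Final

set_option autoImplicit false

/-!
# Part B: the asymptotic statement
-/

namespace Pool.Agent.H63.Quad

open Filter Topology

/-- The ratios of consecutive coefficients converge, with the explicit limit `1 / τ^2`. -/
theorem partB : PartB := by
  intro θ h0 h1
  obtain ⟨τ, hτ, hM⟩ := Pool.Agent.H82.Quad.partB3_AA0 Pool.Agent.H48.Quad.limA Pool.Agent.H48.Quad.lb θ h0 h1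
  have hF := Pool.Agent.H36.Quad.free_UU Pool.Agent.H48.Quad.ed Pool.Agent.H48.Quad.lb
  exact ⟨1 / τ ^ 2, fun gs hgs =>
    Pool.Agent.H51.Quad.final (Pool.Agent.H51.Quad.ALC_of_Free _ hF) θ τ h0 hτ hM gs hgs⟩

end Pool.Agent.H63.Quad
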