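import Pool.Agent.H63.Quad.LogConvex

set_option autoImplicit false

/-!
# Part B: definitions and interface

Notation: `yN N n = Q_n(1/N^2)`, `aN N n = Q_n / Q_{n+1}` at `z = 1/N^2` (nonincreasing in `n` for an
integer `N ≥ 1`), `wN N n g = q(n,g) N^(-2g) / Q_n(1/N^2)` (a probability vector in `g`).
-/

namespace Pool.Agent.H63.Quad

open Finset Filter Topology Polynomial

/-- The value `Q_n(1/N^2)`. -/
noncomputable def yN (N n : ℕ) : ℝ := (Qp n).eval (1 / (N : ℝ) ^ 2)

/-- The ratio `Q_n / Q_{n+1}` at `1/N^2`. -/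
noncomputable def aN (N n : ℕ) : ℝ := yN N n / yN N (n + 1)

/-- The normalised weights in the genus. -/
noncomputable def wN (N n g : ℕ) : ℝ := (Qp n).coeff g * (1 / (N : ℝ) ^ 2) ^ g / yN N n

theorem three_eq_C : (3 : ℝ[X]) = C 3 := (map_ofNat C 3).symm

theorem Qp_one_eq : Qp 1 = C (2 : ℝ) := by
  rw [Qp]; exact (map_ofNat C 2).symm

theorem Qp_coeff_nonneg : ∀ n g : ℕ, 0 ≤ (Qp n).coeff g := by
  intro n
  induction n using Nat.strong_induction_on with
  | _ n ih =>
    intro g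
    match n, ih with
    | 0, _ => simp only [Qp, coeff_one]; split_ifs <;> norm_num
    | 1, _ =>
      rw [Qp_one_eq, coeff_C]; split_ifs <;> norm_num
    | m + 2, ih =>
      have h1 : ∀ g, 0 ≤ (Qp (m + 1)).coeff g := ih (m + 1) (by omega)
      have h0 : ∀ g, 0 ≤ (Qp m).coeff g := ih m (by omega)
      have hX : 0 ≤ (Polynomial.X * Qp m).coeff g := by
        cases g with
        | zero => simp
        | succ g => rw [coeff_X_mul]; exact h0 g
      have hconv : ∀ i : Fin (m + 1), 0 ≤ ((C ((2 * ((i : ℕ) : ℝ) + 1) * (2 * ((m - i : ℕ) : ℝ) + 1))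
            * Qp i * Qp (m - i)).coeff g) := by
        intro i
        rw [mul_assoc, coeff_C_mul, coeff_mul]
        refine mul_nonneg (by positivity) (sum_nonneg fun p _ => mul_nonneg ?_ ?_)
        · exact ih i (by omega) _
        · exact ih (m - i) (by omega) _
      have hs : 0 ≤ ∑ i : Fin (m + 1), ((C ((2 * ((i : ℕ) : ℝ) + 1) * (2 * ((m - i : ℕ) : ℝ) + 1))
            * Qp i * Qp (m - i)).coeff g) := sum_nonneg fun i _ => hconv i
      rw [Qp, coeff_C_mul, coeff_add, coeff_add, coeff_C_mul, mul_assoc (C _) Polynomial.X, coeff_C_mul,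
        three_eq_C, coeff_C_mul, finsetSum_coeff]
      have := h1 g
      refine mul_nonneg (by positivity) (add_nonneg (add_nonneg (by positivity) ?_) ?_)
      · exact mul_nonneg (by positivity) hX
      · exact mul_nonneg (by norm_num) hs

/-- The recurrence for the values at a real point. -/
theorem Qp_eval_rec (z : ℝ) (m : ℕ) :
    ((m : ℝ) + 3) * (Qp (m + 2)).eval z = 4 * (2 * m + 3) * (Qp (m + 1)).eval z
      + (2 * m + 1) * (m + 1) * (2 * m + 3) * z * (Qp m).eval z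
      + 3 * ∑ p ∈ antidiagonal m, ((2 * (p.1 : ℝ) + 1) * (Qp p.1).eval z)
          * ((2 * (p.2 : ℝ) + 1) * (Qp p.2).eval z) := by
  have hs : ∑ p ∈ antidiagonal m, ((2 * (p.1 : ℝ) + 1) * (Qp p.1).eval z)
          * ((2 * (p.2 : ℝ) + 1) * (Qp p.2).eval z)
      = ∑ i : Fin (m + 1), (2 * ((i : ℕ) : ℝ) + 1) * (2 * ((m - i : ℕ) : ℝ) + 1)
          * (Qp i).eval z * (Qp (m - i)).eval z := by
    rw [Finset.Nat.sum_antidiagonal_eq_sum_range_succ_mk, Finset.sum_range]
    refine sum_congr rfl fun i _ => by ring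
  rw [hs, Qp, three_eq_C]
  simp only [eval_mul, eval_add, eval_C, eval_X, eval_finsetSum]
  have : ((m : ℝ) + 3) ≠ 0 := by positivity
  field_simp

theorem Qp_eval_pos (z : ℝ) (hz : 0 ≤ z) : ∀ n : ℕ, 0 < (Qp n).eval z := by
  intro n
  induction n using Nat.strong_induction_on with
  | _ n ih =>
    match n, ih with
    | 0, _ => simp [Qp]
    | 1, _ => rw [Qp_one_eq, eval_C]; norm_num
    | m + 2, ih =>
      have h1 := ih (m + 1) (by omega)
      have h0 := ih m (by omega)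
      have hr := Qp_eval_rec z m
      have hs : 0 ≤ ∑ p ∈ antidiagonal m, ((2 * (p.1 : ℝ) + 1) * (Qp p.1).eval z)
          * ((2 * (p.2 : ℝ) + 1) * (Qp p.2).eval z) := by
        refine sum_nonneg fun p hp => ?_
        have hp' := Finset.HasAntidiagonal.mem_antidiagonal.mp hp
        have e1 := ih p.1 (by omega)
        have e2 := ih p.2 (by omega)
        positivity
      have h3 : 0 < ((m : ℝ) + 3) * (Qp (m + 2)).eval z := by
        rw [hr]; positivity
      exact (mul_pos_iff_of_pos_left (by positivity)).mp h3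

theorem yN_pos (N n : ℕ) : 0 < yN N n := Qp_eval_pos _ (by positivity) n

theorem aN_pos (N n : ℕ) : 0 < aN N n := div_pos (yN_pos _ _) (yN_pos _ _)

theorem yN_zero (N : ℕ) : yN N 0 = 1 := by simp [yN, Qp]

theorem yN_one (N : ℕ) : yN N 1 = 2 := by simp [yN, Qp_one_eq]

theorem aN_zero (N : ℕ) : aN N 0 = 1 / 2 := by simp [aN, yN_zero, yN_one]

theorem yN_rec (N m : ℕ) :
    ((m : ℝ) + 3) * yN N (m + 2) = 4 * (2 * m + 3) * yN N (m + 1)
      + (2 * m + 1) * (m + 1) * (2 * m + 3) * (1 / (N : ℝ) ^ 2) * yN N m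
      + 3 * ∑ p ∈ antidiagonal m, ((2 * (p.1 : ℝ) + 1) * yN N p.1)
          * ((2 * (p.2 : ℝ) + 1) * yN N p.2) := Qp_eval_rec _ m

/-- Log-convexity in `n` for integer `N`. -/
theorem yN_logconvex (N : ℕ) (hN : 1 ≤ N) (n : ℕ) : yN N (n + 1) ^ 2 ≤ yN N n * yN N (n + 2) := by
  have h := PP_logconvex N hN n
  have hN' : (0 : ℝ) < N := by exact_mod_cast hN
  unfold PP at h
  change (_ * yN N (n + 1)) ^ 2 ≤ (_ * yN N n) * (_ * yN N (n + 2)) at h
  have e1 : ((N : ℝ) ^ (n + 1 + 2) * yN N (n + 1)) ^ 2 = (N : ℝ) ^ (2 * n + 6) * yN N (n + 1) ^ 2 := by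
    rw [mul_pow, ← pow_mul]; congr 2; ring
  have e2 : ((N : ℝ) ^ (n + 2) * yN N n) * ((N : ℝ) ^ (n + 2 + 2) * yN N (n + 2))
      = (N : ℝ) ^ (2 * n + 6) * (yN N n * yN N (n + 2)) := by
    rw [show 2 * n + 6 = (n + 2) + (n + 2 + 2) by ring, pow_add]; ring
  rw [e1, e2] at h
  exact le_of_mul_le_mul_left h (by positivity)

/-- The ratios are nonincreasing. -/
theorem aN_antitone (N : ℕ) (hN : 1 ≤ N) : Antitone (aN N) := by
  refine antitone_nat_of_succ_le fun n => ?_
  unfold aN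
  rw [div_le_div_iff₀ (yN_pos _ _) (yN_pos _ _)]
  have := yN_logconvex N hN n
  nlinarith [this]

theorem yN_succ (N n : ℕ) : yN N n = aN N n * yN N (n + 1) := by
  unfold aN
  have := (yN_pos N (n + 1)).ne'
  field_simp

end Pool.Agent.H63.Quad
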