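import Pool.Agent.H63.Quad.Volterra

set_option autoImplicit false

/-! Module Ae: the Carrell-Chapuy recurrence for the coefficients of `M_N`. -/

namespace Pool.Agent.H63.Quad

open Finset PowerSeries

theorem CCeq (N : ℕ) (hN : 1 ≤ N) : 2 * (Dt (MN N) + MN N) =
    2 * (C (N : ℚ)) ^ 2 + 8 * C (N : ℚ) * uu N + 6 * uu N ^ 2
      + 2 * X * (2 * Dt (Dt (uu N)) + Dt (uu N)) := by
  have h1 := eqI N hN
  have h2 := eqII N hN
  have h3 := Du N hN
  have h4 := D_MN N hN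
  have h5 := MN_eq N hN
  set a := rs (2 * N - 1) with ha
  set b := rs (2 * N) with hb
  set u := uu N with hu
  have hu' : u = X * (a * b) := rfl
  set c : PowerSeries ℚ := C (N : ℚ) with hc
  have h6 : 2 * Dt (Dt u) = (Dt b - Dt a) * (u + c) + (b - a) * Dt u := by
    have e := congrArg Dt h3
    have e2 : Dt (2 * Dt u) = 2 * Dt (Dt u) := by
      have : (2 : PowerSeries ℚ) = C (2 : ℚ) := by rw [map_ofNat]
      rw [this, Dt_mul, Dt_C]; ring
    have e3 : Dt (u + c) = Dt u := by rw [Dt_add, hc, Dt_C, add_zero]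
    rw [e2, Dt_mul, Dt_sub, e3] at e
    exact e
  -- 2 (D+1) M = (u+c)(a+b)
  have h7 : 2 * X * (2 * Dt (Dt u) + Dt u) = (u + c) * (a + b - 2 * c - 6 * u) := by
    linear_combination 2 * X * h6 - (u + c) * h1 - (u + c) * h2 + (X * (b - a) + X) * h3
      + 6 * (u + c) * hu'
  rw [h7]
  linear_combination h4 + h5

/-- Coefficients of `M_N`. -/
noncomputable def mm (N n : ℕ) : ℚ := coeff n (MN N)

theorem uu_eq (N : ℕ) (hN : 1 ≤ N) : uu N = X * (2 * Dt (MN N) + MN N) := by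
  rw [D_MN N hN]; rfl

theorem coeff_two_mul (n : ℕ) (f : PowerSeries ℚ) : coeff n (2 * f) = 2 * coeff n f := by
  have : (2 : PowerSeries ℚ) = C (2 : ℚ) := by rw [map_ofNat]
  rw [this, coeff_C_mul]

theorem coeff_w (N n : ℕ) : coeff n (2 * Dt (MN N) + MN N) = (2 * (n : ℚ) + 1) * mm N n := by
  rw [map_add, coeff_two_mul, coeff_Dt]
  unfold mm
  ring

theorem coeff_uu_succ (N : ℕ) (hN : 1 ≤ N) (n : ℕ) :
    coeff (n + 1) (uu N) = (2 * (n : ℚ) + 1) * mm N n := by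
  rw [uu_eq N hN, coeff_succ_X_mul, coeff_w]

theorem coeff_uu_zero (N : ℕ) : coeff 0 (uu N) = 0 := by
  unfold uu; rw [coeff_zero_X_mul]

theorem mm_rec (N : ℕ) (hN : 1 ≤ N) (n : ℕ) :
    ((n : ℚ) + 3) * mm N (n + 2) = 4 * (2 * n + 3) * N * mm N (n + 1)
      + (2 * n + 1) * (n + 1) * (2 * n + 3) * mm N n
      + 3 * ∑ p ∈ antidiagonal n, ((2 * (p.1 : ℚ) + 1) * mm N p.1) * ((2 * (p.2 : ℚ) + 1) * mm N p.2) := by
  have h := congrArg (coeff (n + 2)) (CCeq N hN)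
  have e1 : coeff (n + 2) (2 * (Dt (MN N) + MN N)) = 2 * ((n + 3 : ℚ) * mm N (n + 2)) := by
    rw [coeff_two_mul, map_add, coeff_Dt]
    unfold mm
    push_cast
    ring
  have e2 : coeff (n + 2) (2 * (C (N : ℚ)) ^ 2 : PowerSeries ℚ) = 0 := by
    rw [coeff_two_mul, ← map_pow, coeff_C, if_neg (by omega), mul_zero]
  have e3 : coeff (n + 2) (8 * C (N : ℚ) * uu N) = 8 * N * ((2 * ((n + 1 : ℕ) : ℚ) + 1) * mm N (n + 1)) := by
    have : (8 * C (N : ℚ) : PowerSeries ℚ) = C (8 * (N : ℚ)) := by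
      rw [map_mul, map_ofNat]
    rw [this, coeff_C_mul, coeff_uu_succ N hN]
  have e4 : coeff (n + 2) (6 * uu N ^ 2) = 6 * ∑ p ∈ antidiagonal n,
      ((2 * (p.1 : ℚ) + 1) * mm N p.1) * ((2 * (p.2 : ℚ) + 1) * mm N p.2) := by
    have : (6 * uu N ^ 2 : PowerSeries ℚ) = C (6 : ℚ) * (X * (X * ((2 * Dt (MN N) + MN N) * (2 * Dt (MN N) + MN N)))) := by
      rw [uu_eq N hN, map_ofNat]; ring
    rw [this, coeff_C_mul, show n + 2 = (n + 1) + 1 from rfl, coeff_succ_X_mul, coeff_succ_X_mul,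
      coeff_mul]
    congr 1
    apply Finset.sum_congr rfl
    intro p _
    rw [coeff_w, coeff_w]
  have e5 : coeff (n + 2) (2 * X * (2 * Dt (Dt (uu N)) + Dt (uu N))) =
      2 * ((n + 1 : ℚ) * (2 * n + 3) * ((2 * n + 1) * mm N n)) := by
    have : (2 * X * (2 * Dt (Dt (uu N)) + Dt (uu N)) : PowerSeries ℚ)
        = 2 * (X * (2 * Dt (Dt (uu N)) + Dt (uu N))) := by ring
    rw [this, coeff_two_mul, show n + 2 = (n + 1) + 1 from rfl, coeff_succ_X_mul, map_add,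
      coeff_two_mul, coeff_Dt, coeff_Dt, coeff_uu_succ N hN]
    push_cast
    ring
  rw [e1, map_add, map_add, map_add, e2, e3, e4, e5] at h
  push_cast at h
  linear_combination h / 2

theorem mm_zero (N : ℕ) (hN : 1 ≤ N) : mm N 0 = (N : ℚ) ^ 2 := by
  have h := congrArg (coeff 0) (CCeq N hN)
  have e1 : coeff 0 (2 * (Dt (MN N) + MN N)) = 2 * mm N 0 := by
    rw [coeff_two_mul, map_add, coeff_Dt]
    unfold mm
    push_cast
    ring
  have e2 : coeff 0 (2 * (C (N : ℚ)) ^ 2 : PowerSeries ℚ) = 2 * (N : ℚ) ^ 2 := by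
    rw [coeff_two_mul, ← map_pow, coeff_C, if_pos rfl]
  have e3 : coeff 0 (8 * C (N : ℚ) * uu N) = 0 := by
    rw [coeff_zero_eq_constantCoeff_apply, map_mul, ← coeff_zero_eq_constantCoeff_apply (uu N),
      coeff_uu_zero, mul_zero]
  have e4 : coeff 0 (6 * uu N ^ 2) = 0 := by
    rw [coeff_zero_eq_constantCoeff_apply, map_mul, map_pow,
      ← coeff_zero_eq_constantCoeff_apply (uu N), coeff_uu_zero]
    simp
  have e5 : coeff 0 (2 * X * (2 * Dt (Dt (uu N)) + Dt (uu N))) = 0 := by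
    rw [coeff_zero_eq_constantCoeff_apply, map_mul, map_mul]
    simp
  rw [e1, map_add, map_add, map_add, e2, e3, e4, e5] at h
  linarith

theorem mm_one (N : ℕ) (hN : 1 ≤ N) : mm N 1 = 2 * (N : ℚ) ^ 3 := by
  have h := congrArg (coeff 1) (CCeq N hN)
  have e1 : coeff 1 (2 * (Dt (MN N) + MN N)) = 4 * mm N 1 := by
    rw [coeff_two_mul, map_add, coeff_Dt]
    unfold mm
    push_cast
    ring
  have e2 : coeff 1 (2 * (C (N : ℚ)) ^ 2 : PowerSeries ℚ) = 0 := by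
    rw [coeff_two_mul, ← map_pow, coeff_C, if_neg (by omega), mul_zero]
  have e3 : coeff 1 (8 * C (N : ℚ) * uu N) = 8 * N * mm N 0 := by
    have : (8 * C (N : ℚ) : PowerSeries ℚ) = C (8 * (N : ℚ)) := by
      rw [map_mul, map_ofNat]
    rw [this, coeff_C_mul, show (1 : ℕ) = 0 + 1 from rfl, coeff_uu_succ N hN]
    push_cast
    ring
  have e4 : coeff 1 (6 * uu N ^ 2) = 0 := by
    have : (6 * uu N ^ 2 : PowerSeries ℚ) = C (6 : ℚ) * (X * (X * ((2 * Dt (MN N) + MN N) * (2 * Dt (MN N) + MN N)))) := by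
      rw [uu_eq N hN, map_ofNat]; ring
    have e0 : ∀ f : PowerSeries ℚ, coeff 1 (X * f) = coeff 0 f := fun f => coeff_succ_X_mul 0 f
    rw [this, coeff_C_mul, e0, coeff_zero_X_mul, mul_zero]
  have e5 : coeff 1 (2 * X * (2 * Dt (Dt (uu N)) + Dt (uu N))) = 0 := by
    have : (2 * X * (2 * Dt (Dt (uu N)) + Dt (uu N)) : PowerSeries ℚ)
        = 2 * (X * (2 * Dt (Dt (uu N)) + Dt (uu N))) := by ring
    have e0 : ∀ f : PowerSeries ℚ, coeff 1 (X * f) = coeff 0 f := fun f => coeff_succ_X_mul 0 f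
    rw [this, coeff_two_mul, e0, map_add, coeff_two_mul, coeff_Dt, coeff_Dt]
    push_cast
    ring
  rw [e1, map_add, map_add, map_add, e2, e3, e4, e5, mm_zero N hN] at h
  linear_combination h / 4

/-- Recurrence for the evaluated polynomials. -/
noncomputable def PP (N : ℝ) (n : ℕ) : ℝ := N ^ (n + 2) * (Qp n).eval (1 / N ^ 2)

theorem PP_zero (N : ℝ) : PP N 0 = N ^ 2 := by
  unfold PP; simp [Qp]

theorem PP_one (N : ℝ) : PP N 1 = 2 * N ^ 3 := by
  unfold PP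
  have : (Qp 1).eval (1 / N ^ 2) = 2 := by
    rw [Qp]; exact Polynomial.eval_ofNat 2 _
  rw [this]; ring

theorem PP_rec (N : ℝ) (hN : N ≠ 0) (n : ℕ) :
    ((n : ℝ) + 3) * PP N (n + 2) = 4 * (2 * n + 3) * N * PP N (n + 1)
      + (2 * n + 1) * (n + 1) * (2 * n + 3) * PP N n
      + 3 * ∑ p ∈ antidiagonal n, ((2 * (p.1 : ℝ) + 1) * PP N p.1) * ((2 * (p.2 : ℝ) + 1) * PP N p.2) := by
  have hn : ((n : ℝ) + 3) ≠ 0 := by positivity
  have e : (Qp (n + 2)).eval (1 / N ^ 2) = (1 / ((n : ℝ) + 3)) *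
      (4 * (2 * (n : ℝ) + 3) * (Qp (n + 1)).eval (1 / N ^ 2)
        + ((2 * (n : ℝ) + 1) * (n + 1) * (2 * n + 3)) * (1 / N ^ 2) * (Qp n).eval (1 / N ^ 2)
        + 3 * ∑ p ∈ antidiagonal n, ((2 * (p.1 : ℝ) + 1) * (2 * (p.2 : ℝ) + 1))
            * (Qp p.1).eval (1 / N ^ 2) * (Qp p.2).eval (1 / N ^ 2)) := by
    rw [Qp, Polynomial.eval_mul, Polynomial.eval_C, Polynomial.eval_add, Polynomial.eval_add,
      Polynomial.eval_mul, Polynomial.eval_C, Polynomial.eval_mul, Polynomial.eval_mul,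
      Polynomial.eval_C, Polynomial.eval_X, Polynomial.eval_mul, Polynomial.eval_ofNat,
      Polynomial.eval_finset_sum, Finset.Nat.sum_antidiagonal_eq_sum_range_succ_mk,
      Finset.sum_range]
    congr 3
    apply Finset.sum_congr rfl
    intro i _
    rw [Polynomial.eval_mul, Polynomial.eval_mul, Polynomial.eval_C]
  have e2 : ∑ p ∈ antidiagonal n, ((2 * (p.1 : ℝ) + 1) * PP N p.1) * ((2 * (p.2 : ℝ) + 1) * PP N p.2)
      = N ^ (n + 4) * ∑ p ∈ antidiagonal n, ((2 * (p.1 : ℝ) + 1) * (2 * (p.2 : ℝ) + 1))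
            * (Qp p.1).eval (1 / N ^ 2) * (Qp p.2).eval (1 / N ^ 2) := by
    rw [mul_sum]
    apply Finset.sum_congr rfl
    intro p hp
    rw [Finset.HasAntidiagonal.mem_antidiagonal] at hp
    unfold PP
    rw [← hp]
    ring
  rw [e2]
  unfold PP
  rw [e]
  have hN2 : N ^ 2 ≠ 0 := pow_ne_zero 2 hN
  field_simp
  ring

theorem mm_eq_PP (N : ℕ) (hN : 1 ≤ N) (n : ℕ) : ((mm N n : ℚ) : ℝ) = PP (N : ℝ) n := by
  have hN0 : (N : ℝ) ≠ 0 := by positivity
  induction n using Nat.strong_induction_on with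
  | _ n ih =>
    match n with
    | 0 => rw [mm_zero N hN, PP_zero]; push_cast; ring
    | 1 => rw [mm_one N hN, PP_one]; push_cast; ring
    | n + 2 =>
      have h1 := mm_rec N hN n
      have h2 := PP_rec (N : ℝ) hN0 n
      have h3 := congrArg (fun q : ℚ => (q : ℝ)) h1
      beta_reduce at h3
      push_cast at h3
      rw [ih (n + 1) (by omega), ih n (by omega)] at h3
      have e : ∑ p ∈ antidiagonal n, ((2 * (p.1 : ℝ) + 1) * ((mm N p.1 : ℚ) : ℝ)) *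
          ((2 * (p.2 : ℝ) + 1) * ((mm N p.2 : ℚ) : ℝ)) =
          ∑ p ∈ antidiagonal n, ((2 * (p.1 : ℝ) + 1) * PP N p.1) * ((2 * (p.2 : ℝ) + 1) * PP N p.2) := by
        apply Finset.sum_congr rfl
        intro p hp
        rw [Finset.HasAntidiagonal.mem_antidiagonal] at hp
        rw [ih p.1 (by omega), ih p.2 (by omega)]
      rw [e] at h3
      have hn : ((n : ℝ) + 3) ≠ 0 := by positivity
      apply mul_left_cancel₀ hn
      rw [h3, h2]

end Pool.Agent.H63.Quad
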