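import Pool.Agent.H63.Quad.Root

set_option autoImplicit false

/-!
# The Catalan series
-/

namespace Pool.Agent.H63.Quad

open Finset Filter Topology Polynomial

/-- The sum of the Catalan series. -/
noncomputable def CC0 (x : ℝ) : ℝ := 2 / (1 + Real.sqrt (1 - 4 * x))

theorem CC0_eq (x : ℝ) (hx1 : x ≤ 1 / 4) : CC0 x = 1 + x * CC0 x ^ 2 := by
  unfold CC0
  have hs : Real.sqrt (1 - 4 * x) ^ 2 = 1 - 4 * x := Real.sq_sqrt (by linarith)
  have h0 : 0 ≤ Real.sqrt (1 - 4 * x) := Real.sqrt_nonneg _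
  have h1 : (1 + Real.sqrt (1 - 4 * x)) ≠ 0 := by positivity
  field_simp
  nlinarith

theorem CC0_pos (x : ℝ) : 0 < CC0 x := by
  unfold CC0
  have h0 : 0 ≤ Real.sqrt (1 - 4 * x) := Real.sqrt_nonneg _
  positivity

theorem two_x_CC0 (x : ℝ) (hx1 : x ≤ 1 / 4) : 2 * x * CC0 x ≤ 1 := by
  unfold CC0
  have hs : Real.sqrt (1 - 4 * x) ^ 2 = 1 - 4 * x := Real.sq_sqrt (by linarith)
  have h0 : 0 ≤ Real.sqrt (1 - 4 * x) := Real.sqrt_nonneg _
  have h1 : 0 < (1 + Real.sqrt (1 - 4 * x)) := by positivity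
  rw [mul_div_assoc', div_le_one h1]
  nlinarith

/-- Partial sums of the Catalan series. -/
noncomputable def SK (x : ℝ) (K : ℕ) : ℝ := ∑ k ∈ range K, (catalan k : ℝ) * x ^ k

theorem SK_nonneg (x : ℝ) (hx : 0 ≤ x) (K : ℕ) : 0 ≤ SK x K := sum_nonneg fun _ _ => by positivity

theorem SK_succ_le (x : ℝ) (hx : 0 ≤ x) (K : ℕ) : SK x (K + 1) ≤ 1 + x * SK x K ^ 2 := by
  unfold SK
  rw [sum_range_succ', pow_two, sum_mul_sum, ← sum_product']
  have h1 : ∀ k, (catalan (k + 1) : ℝ) * x ^ (k + 1)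
      = x * ∑ p ∈ antidiagonal k, (catalan p.1 : ℝ) * x ^ p.1 * ((catalan p.2 : ℝ) * x ^ p.2) := by
    intro k
    rw [catalan_succ', Nat.cast_sum, sum_mul, mul_sum]
    refine sum_congr rfl fun p hp => ?_
    have hp' := Finset.HasAntidiagonal.mem_antidiagonal.mp hp
    rw [← hp']; push_cast; ring
  simp_rw [h1]
  rw [← mul_sum, add_comm]
  simp only [catalan_zero, Nat.cast_one, pow_zero, mul_one]
  gcongr
  have hd : Set.PairwiseDisjoint (↑(range K)) (fun k : ℕ => (antidiagonal k : Finset (ℕ × ℕ))) := by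
    intro a _ b _ hab
    refine Finset.disjoint_left.2 fun p hp hq => hab ?_
    rw [← Finset.HasAntidiagonal.mem_antidiagonal.mp hp, ← Finset.HasAntidiagonal.mem_antidiagonal.mp hq]
  rw [← sum_biUnion hd]
  refine sum_le_sum_of_subset_of_nonneg ?_ fun _ _ _ => by positivity
  intro p hp
  simp only [mem_biUnion, mem_range, Finset.HasAntidiagonal.mem_antidiagonal, mem_product] at hp ⊢
  obtain ⟨a, ha, hb⟩ := hp
  omega

theorem SK_le (x : ℝ) (hx : 0 ≤ x) (hx1 : x ≤ 1 / 4) (K : ℕ) : SK x K ≤ CC0 x := by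
  induction K with
  | zero => simp [SK, (CC0_pos x).le]
  | succ K ih =>
    refine (SK_succ_le x hx K).trans ?_
    rw [CC0_eq x hx1]
    have := SK_nonneg x hx K
    gcongr

theorem cat_summable (x : ℝ) (hx : 0 ≤ x) (hx1 : x ≤ 1 / 4) : Summable fun k => (catalan k : ℝ) * x ^ k :=
  summable_of_sum_range_le (fun _ => by positivity) (SK_le x hx hx1)

theorem cat_tsum (x : ℝ) (hx : 0 ≤ x) (hx1 : x ≤ 1 / 4) : ∑' k, (catalan k : ℝ) * x ^ k = CC0 x := by
  have hs := cat_summable x hx hx1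
  set S := ∑' k, (catalan k : ℝ) * x ^ k with hS
  have hle : S ≤ CC0 x := hs.tsum_le_of_sum_range_le (SK_le x hx hx1)
  have hn : Summable fun k => ‖(catalan k : ℝ) * x ^ k‖ := by
    refine hs.congr fun k => ?_
    rw [Real.norm_of_nonneg (by positivity)]
  have hsq : S * S = ∑' n, (catalan (n + 1) : ℝ) * x ^ n := by
    rw [hS, tsum_mul_tsum_eq_tsum_sum_antidiagonal_of_summable_norm hn hn]
    refine tsum_congr fun n => ?_
    rw [catalan_succ', Nat.cast_sum, sum_mul]
    refine sum_congr rfl fun p hp => ?_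
    have hp' := Finset.HasAntidiagonal.mem_antidiagonal.mp hp
    rw [← hp']; push_cast; ring
  have hrec : S = 1 + x * (S * S) := by
    rw [hsq, ← tsum_mul_left]
    conv_lhs => rw [hS, hs.tsum_eq_zero_add]
    simp only [catalan_zero, Nat.cast_one, pow_zero, mul_one]
    congr 1
    refine tsum_congr fun n => by ring
  have hC := CC0_eq x hx1
  by_contra hne
  have hlt : S < CC0 x := lt_of_le_of_ne hle hne
  have h1 : (CC0 x - S) * (1 - x * (CC0 x + S)) = 0 := by linear_combination hC - hrec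
  have h2 : 1 - x * (CC0 x + S) = 0 := by
    rcases mul_eq_zero.1 h1 with h | h
    · exfalso; linarith
    · exact h
  have h3 := two_x_CC0 x hx1
  rcases hx.eq_or_lt with h0 | h0
  · rw [← h0] at h2; norm_num at h2
  · have h4 : x * (CC0 x + S) < 2 * x * CC0 x := by nlinarith
    linarith

theorem FF_eq (a : ℝ) (ha : a ≤ 1 / 12) : FF a = 4 * a + 4 * a * CC0 (3 * a) := by
  unfold FF CC0
  have e : (1 : ℝ) - 4 * (3 * a) = 1 - 12 * a := by ring
  rw [e]
  have hs : Real.sqrt (1 - 12 * a) ^ 2 = 1 - 12 * a := Real.sq_sqrt (by linarith)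
  have h0 : 0 ≤ Real.sqrt (1 - 12 * a) := Real.sqrt_nonneg _
  generalize Real.sqrt (1 - 12 * a) = u at hs h0
  have h1 : (1 + u) ≠ 0 := by positivity
  have ha' : a = (1 - u ^ 2) / 12 := by linarith
  rw [ha']
  field_simp
  ring

theorem partial_eq (a : ℝ) (K : ℕ) :
    8 * a + 12 * ∑ i ∈ range K, ((2 * (i : ℝ) + 1) * (Qp i).coeff 0) * a ^ (i + 2)
      = 4 * a + 4 * a * SK (3 * a) (K + 1) := by
  simp_rw [planar]
  unfold SK
  rw [sum_range_succ', mul_add, mul_sum, mul_sum]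
  simp only [catalan_zero, Nat.cast_one, pow_zero, mul_one]
  have : ∀ i, 12 * (3 ^ i * (catalan (i + 1) : ℝ) * a ^ (i + 2))
      = 4 * a * ((catalan (i + 1) : ℝ) * (3 * a) ^ (i + 1)) := by
    intro i
    rw [mul_pow]; ring
  simp_rw [this]
  ring

theorem catSum : CatSum where
  planar := planar
  le := fun a K ha ha1 => by
    rw [partial_eq, FF_eq a ha1]
    have := SK_le (3 * a) (by linarith) (by linarith) (K + 1)
    gcongr
  lim := fun a ha ha1 => by
    simp_rw [partial_eq]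
    rw [FF_eq a ha1]
    have h := (cat_summable (3 * a) (by linarith) (by linarith)).hasSum.tendsto_sum_nat
    rw [cat_tsum (3 * a) (by linarith) (by linarith)] at h
    exact ((h.comp (tendsto_add_atTop_nat 1)).const_mul (4 * a)).const_add (4 * a)

end Pool.Agent.H63.Quad
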