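import Mathlib

set_option autoImplicit false

/-!
# MP_72bf75: definitions shared by the modules of the proof

* `rc n k`: coefficient of `t^n` in the series `r_k` given by the string equation
  `r_k = ⌈k/2⌉ + t r_k (r_{k+1} + r_k + r_{k-1})`, `r_0 = 0`.
* `MN N`: the series `∑_{k=1}^{2N-1} r_k`.
* `Qp n`: the polynomial `∑_g q(n,g) z^g`, where `q(n,g)` is given by the Carrell-Chapuy recurrence.
* `fixN N π`: number of colourings with `N` colours constant on the cycles of `π`.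

Targets of the modules (all `N ≥ 1` integers):
* (Aa) `Frz n k` and `TT n k` : `(Frz n k).ncard * (2 n - 1)! = (TT n k).ncard * (4 n - 1)!`, `n ≥ 1`.
* (Ab) `AA N n = ∑_{j=1}^n C(2n-1, 2j-1) * KK N j * AA N (n-j)`, `n ≥ 1`; `KK N n = ∑_k (TT n k).ncard N^k`.
* (Ac) for a fixed point free involution `β` of `Fin (2 n)`: `VV N β * Ev N 1 = Ev N (psum 2 ^ n)`;
  `Ev N (psum 1 * psum 2 ^ n) = (N^2 + 2 n) Ev N (psum 2 ^ n)`; `Ev N 1 > 0`.
* (Ad) with `ZN N = ∑ Ev(psum 2^n)/(2^n n!) t^n`: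
  `∑ Ev(psum 1 * psum 2^n)/(2^n n!) t^n = MN N * ZN N`.
* (Ae) `coeff n (MN N) = N^(n+2) * (Qp n).eval (1/N^2)`; (Ag) log-convexity in `n`.
-/

namespace Pool.Agent.H63.Quad

open Finset

/-- Coefficient of `t^n` in `r_k`. -/
noncomputable def rc : ℕ → ℕ → ℚ
  | 0, k => ((k + 1) / 2 : ℕ)
  | _ + 1, 0 => 0
  | n + 1, k + 1 => ∑ i : Fin (n + 1),
      rc i (k + 1) * (rc (n - i) (k + 2) + rc (n - i) (k + 1) + rc (n - i) k)

/-- The series `r_k`. -/
noncomputable def rs (k : ℕ) : PowerSeries ℚ := PowerSeries.mk fun n => rc n k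

/-- The series `M_N = ∑_{k=1}^{2N-1} r_k` (the term `k = 0` vanishes). -/
noncomputable def MN (N : ℕ) : PowerSeries ℚ := ∑ k ∈ range (2 * N), rs k

/-- The polynomials of the Carrell-Chapuy recurrence. -/
noncomputable def Qp : ℕ → Polynomial ℝ
  | 0 => 1
  | 1 => 2
  | m + 2 => Polynomial.C (1 / ((m : ℝ) + 3)) *
      (Polynomial.C (4 * (2 * (m : ℝ) + 3)) * Qp (m + 1)
        + Polynomial.C ((2 * (m : ℝ) + 1) * (m + 1) * (2 * m + 3)) * Polynomial.X * Qp m
        + 3 * ∑ i : Fin (m + 1), Polynomial.C ((2 * ((i : ℕ) : ℝ) + 1) * (2 * ((m - i : ℕ) : ℝ) + 1))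
            * Qp i * Qp (m - i))

/-- Number of colourings with `N` colours constant on the cycles of `π`. -/
noncomputable def fixN (N : ℕ) {X : Type} [Fintype X] (π : Equiv.Perm X) : ℕ :=
  Nat.card {f : X → Fin N // ∀ x, f (π x) = f x}

/-- The sum over all permutations `π` of `fixN N π * fixN N (π * β)`. -/
noncomputable def VV (N : ℕ) {X : Type} [Fintype X] [DecidableEq X] (β : Equiv.Perm X) : ℕ :=
  ∑ π : Equiv.Perm X, fixN N π * fixN N (π * β)

/-- Number of cycles (fixed points included). -/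
noncomputable def orb {X : Type} [Fintype X] (π : Equiv.Perm X) : ℕ :=
  Nat.card (Quotient (Equiv.Perm.SameCycle.setoid π))

/-- Fixed point free involution. -/
def Inv2 {X : Type} (β : Equiv.Perm X) : Prop := ∀ d, β (β d) = d ∧ β d ≠ d

/-- The pair generates a transitive group. -/
def Trans {X : Type} (p : Equiv.Perm X × Equiv.Perm X) : Prop :=
  ∀ d e, ∃ w ∈ Subgroup.closure ({p.1, p.2} : Set (Equiv.Perm X)), w d = e

/-- Connected pairs on `Fin (2 n)` with `k` vertices. -/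
def TT (n k : ℕ) : Set (Equiv.Perm (Fin (2 * n)) × Equiv.Perm (Fin (2 * n))) :=
  {p | Inv2 p.2 ∧ Trans p ∧ orb p.1 + orb (p.1 * p.2) = k}

/-- The set of the frozen statement, with `k` vertices. -/
def Frz (n k : ℕ) : Set (Equiv.Perm (Fin (4 * n)) × Equiv.Perm (Fin (4 * n))) :=
  {p | (∀ d, p.2 (p.2 d) = d ∧ p.2 d ≠ d) ∧
    (∀ d e, ∃ w ∈ Subgroup.closure ({p.1, p.2} : Set (Equiv.Perm (Fin (4 * n)))), w d = e) ∧
    (∀ d, Function.minimalPeriod (p.1 * p.2) d = 4) ∧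
    (∃ c : Fin (4 * n) → Bool, ∀ d, c (p.1 d) = c d ∧ c (p.2 d) ≠ c d) ∧
    (∑ d, (1 : ℚ) / (Function.minimalPeriod p.1 d : ℚ)) = (k : ℚ)}

open Classical in
/-- Weighted number of connected pairs. -/
noncomputable def KK (N n : ℕ) : ℕ :=
  ∑ p : Equiv.Perm (Fin (2 * n)) × Equiv.Perm (Fin (2 * n)),
    if Inv2 p.2 ∧ Trans p then fixN N p.1 * fixN N (p.1 * p.2) else 0

open Classical in
/-- Weighted number of all pairs. -/
noncomputable def AA (N n : ℕ) : ℕ :=
  ∑ p : Equiv.Perm (Fin (2 * n)) × Equiv.Perm (Fin (2 * n)),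
    if Inv2 p.2 then fixN N p.1 * fixN N (p.1 * p.2) else 0

/-- The functional `x^a ↦ ∏ a_i!`. -/
noncomputable def Lam (N : ℕ) : MvPolynomial (Fin N) ℚ →ₗ[ℚ] ℚ :=
  (MvPolynomial.basisMonomials (Fin N) ℚ).constr ℚ fun a => ((∏ i, (a i).factorial : ℕ) : ℚ)

/-- The Vandermonde product. -/
noncomputable def vdm (N : ℕ) : MvPolynomial (Fin N) ℚ :=
  ∏ i : Fin N, ∏ j ∈ Ioi i, (MvPolynomial.X j - MvPolynomial.X i)

/-- The Laguerre ensemble functional (not normalised). -/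
noncomputable def Ev (N : ℕ) (F : MvPolynomial (Fin N) ℚ) : ℚ := Lam N (vdm N ^ 2 * F)

/-- Power sums. -/
noncomputable def ps (N k : ℕ) : MvPolynomial (Fin N) ℚ := ∑ i : Fin N, MvPolynomial.X i ^ k

/-- The partition function. -/
noncomputable def ZN (N : ℕ) : PowerSeries ℚ :=
  PowerSeries.mk fun n => Ev N (ps N 2 ^ n) / (2 ^ n * n.factorial)

end Pool.Agent.H63.Quad
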