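import Pool.Agent.H63.Quad.Defs

set_option autoImplicit false

/-!
# The number of fixed point free involutions
-/

namespace Pool.Agent.H63.Quad

open Finset Equiv.Perm

theorem inv2_iff_cycleType (n : ℕ) (β : Equiv.Perm (Fin (2 * n))) :
    Inv2 β ↔ β.cycleType = Multiset.replicate n 2 := by
  constructor
  · intro h
    have h2 : β ^ 2 = 1 := by
      ext d
      rw [pow_two, mul_apply, (h d).1]; rfl
    haveI : Fact (Nat.Prime 2) := ⟨Nat.prime_two⟩
    have h3 := cycleType_of_pow_prime_eq_one h2
    have h4 : β.support = univ := by
      ext d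
      simp only [mem_support, mem_univ, iff_true]
      exact (h d).2
    have h5 := β.sum_cycleType
    rw [h4, card_univ, Fintype.card_fin, h3, Multiset.sum_replicate, smul_eq_mul] at h5
    rw [h3]
    congr 1
    omega
  · intro h d
    haveI : Fact (Nat.Prime 2) := ⟨Nat.prime_two⟩
    have h2 : β ^ 2 = 1 := by
      rw [pow_prime_eq_one_iff, h]
      intro c hc
      exact Multiset.eq_of_mem_replicate hc
    have h5 := β.sum_cycleType
    rw [h, Multiset.sum_replicate, smul_eq_mul] at h5
    have h6 : β.support = univ := by
      rw [← card_eq_iff_eq_univ, Fintype.card_fin]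
      omega
    refine ⟨?_, ?_⟩
    · have := congrArg (fun f : Equiv.Perm (Fin (2 * n)) => f d) h2
      simpa [pow_two] using this
    · have : d ∈ β.support := by rw [h6]; exact mem_univ d
      exact mem_support.1 this

open Classical in
theorem inv2_card (n : ℕ) :
    (univ.filter fun β : Equiv.Perm (Fin (2 * n)) => Inv2 β).card * (2 ^ n * n.factorial) = (2 * n).factorial := by
  have h := card_of_cycleType_mul_eq (Fin (2 * n)) (Multiset.replicate n 2)
  rw [if_pos ⟨by simp [mul_comm], fun a ha => (Multiset.eq_of_mem_replicate ha).ge⟩] at h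
  simp only [Fintype.card_fin, Multiset.sum_replicate, smul_eq_mul, Multiset.prod_replicate] at h
  rw [show 2 * n - n * 2 = 0 by omega, Nat.factorial_zero, one_mul] at h
  have h1 : ∏ k ∈ (Multiset.replicate n 2).toFinset, ((Multiset.replicate n 2).count k).factorial
      = n.factorial := by
    rcases Nat.eq_zero_or_pos n with h0 | h0
    · subst h0; simp
    · rw [Multiset.toFinset_replicate, if_neg (by omega), prod_singleton, Multiset.count_replicate_self]
  rw [h1] at h
  rw [← h]
  congr 2
  ext β
  simp only [mem_filter, mem_univ, true_and]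
  exact inv2_iff_cycleType n β

end Pool.Agent.H63.Quad
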