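import Pool.Agent.H63.Quad.CC

set_option autoImplicit false

/-! Module Ag: log-convexity in `n` of the coefficients of `r_k` and of `M_N`. -/

namespace Pool.Agent.H63.Quad

open Finset

/-- One step of the de Bruijn-Erdos argument. -/
theorem dbe_step (u f : ℕ → ℚ) (hf : ∀ n, 0 < f n) (hu0 : ∀ n, 0 < u n)
    (hu : ∀ n, u (n + 1) = ∑ i ∈ range (n + 1), f i * u (n - i)) (p : ℕ)
    (hd : ∀ i ≤ p, u (i + 1) * u p ≤ u (p + 1) * u i)
    (hF : ∀ i < p, f p * f (i + 1) ≤ f (p + 1) * f i) :
    u (p + 1) ^ 2 ≤ u p * u (p + 2) := by
  have h2 : u (p + 2) = ∑ i ∈ range (p + 1), f i * u (p + 1 - i) + f (p + 1) * u 0 := by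
    rw [hu (p + 1), sum_range_succ, Nat.sub_self]
  have h1 : u (p + 1) = ∑ i ∈ range (p + 1), f i * u (p - i) := hu p
  rcases Nat.eq_zero_or_pos p with rfl | hp
  · simp at h1 h2
    rw [h2]
    have := hu0 0
    have := hf 1
    have h3 : u (0 + 1) = u 1 := rfl
    have h4 : u 1 ^ 2 = u 1 * (f 0 * u 0) := by rw [← h1]; ring
    rw [h3, h4]
    have := mul_pos (hf 1) (mul_pos (hu0 0) (hu0 0))
    linarith
  · set d : ℕ → ℚ := fun i => u (p + 1) * u i - u (i + 1) * u p with hddef
    have hd0 : ∀ i ≤ p, 0 ≤ d i := fun i hi => by
      simp only [hddef]; linarith [hd i hi]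
    have h1' : u (p + 1) = ∑ i ∈ range p, f i * u (p - i) + f p * u 0 := by
      rw [h1, sum_range_succ, Nat.sub_self]
    have h0 : u p = ∑ i ∈ range p, f i * u (p - 1 - i) := by
      obtain ⟨q, rfl⟩ : ∃ q, p = q + 1 := ⟨p - 1, by omega⟩
      rw [hu q, Nat.add_sub_cancel]
    have hA : ∑ i ∈ range p, f i * d (p - 1 - i) = u p * (f p * u 0) := by
      have e : ∀ i ∈ range p, f i * d (p - 1 - i) =
          u (p + 1) * (f i * u (p - 1 - i)) - u p * (f i * u (p - i)) := by
        intro i hi
        rw [mem_range] at hi
        simp only [hddef]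
        rw [show p - 1 - i + 1 = p - i by omega]
        ring
      rw [sum_congr rfl e, sum_sub_distrib, ← mul_sum, ← mul_sum, ← h0]
      have : ∑ i ∈ range p, f i * u (p - i) = u (p + 1) - f p * u 0 := by linarith
      rw [this]; ring
    have hB : u p * u (p + 2) - u (p + 1) ^ 2 = u p * (f (p + 1) * u 0)
        - ∑ i ∈ range p, f (i + 1) * d (p - 1 - i) := by
      have e : ∑ i ∈ range (p + 1), f i * (u (p + 1) * u (p - i) - u p * u (p + 1 - i)) =
          ∑ i ∈ range p, f (i + 1) * d (p - 1 - i) := by
        rw [sum_range_succ']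
        have : f 0 * (u (p + 1) * u (p - 0) - u p * u (p + 1 - 0)) = 0 := by
          rw [Nat.sub_zero, Nat.sub_zero]; ring
        rw [this, add_zero]
        apply sum_congr rfl
        intro i hi
        rw [mem_range] at hi
        simp only [hddef]
        rw [show p - 1 - i + 1 = p - i by omega, show p - (i + 1) = p - 1 - i by omega,
          show p + 1 - (i + 1) = p - i by omega]
        ring
      rw [← e]
      have e2 : ∑ i ∈ range (p + 1), f i * (u (p + 1) * u (p - i) - u p * u (p + 1 - i)) =
          u (p + 1) * ∑ i ∈ range (p + 1), f i * u (p - i)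
            - u p * ∑ i ∈ range (p + 1), f i * u (p + 1 - i) := by
        rw [mul_sum, mul_sum, ← sum_sub_distrib]
        apply sum_congr rfl
        intro i _
        ring
      rw [e2, ← h1]
      have : ∑ i ∈ range (p + 1), f i * u (p + 1 - i) = u (p + 2) - f (p + 1) * u 0 := by linarith
      rw [this]; ring
    have hC : f p * ∑ i ∈ range p, f (i + 1) * d (p - 1 - i) ≤
        f (p + 1) * ∑ i ∈ range p, f i * d (p - 1 - i) := by
      rw [mul_sum, mul_sum]
      apply sum_le_sum
      intro i hi
      rw [mem_range] at hi
      have := mul_le_mul_of_nonneg_right (hF i hi) (hd0 (p - 1 - i) (by omega))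
      linarith
    rw [hA] at hC
    have h3 : ∑ i ∈ range p, f (i + 1) * d (p - 1 - i) ≤ u p * (f (p + 1) * u 0) := by
      have h4 : f p * ∑ i ∈ range p, f (i + 1) * d (p - 1 - i) ≤ f p * (u p * (f (p + 1) * u 0)) := by
        linarith
      exact le_of_mul_le_mul_left h4 (hf p)
    linarith

theorem rc_rec (n k : ℕ) : rc (n + 1) (k + 1) = ∑ i ∈ range (n + 1),
    (rc i (k + 2) + rc i (k + 1) + rc i k) * rc (n - i) (k + 1) := by
  rw [rc, ← Finset.sum_range (fun i => rc i (k + 1) * (rc (n - i) (k + 2) + rc (n - i) (k + 1) + rc (n - i) k)),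
    ← Finset.sum_range_reflect]
  apply sum_congr rfl
  intro i hi
  rw [mem_range] at hi
  rw [show n + 1 - 1 - i = n - i by omega, show n - (n - i) = i by omega]
  ring

theorem rc_nonneg : ∀ n k, 0 ≤ rc n k := by
  intro n
  induction n using Nat.strong_induction_on with
  | _ n ih =>
    intro k
    match n, k with
    | 0, k => rw [rc]; exact Nat.cast_nonneg _
    | n + 1, 0 => rw [rc]
    | n + 1, k + 1 =>
      rw [rc_rec]
      apply sum_nonneg
      intro i hi
      rw [mem_range] at hi
      have h1 := ih i hi
      exact mul_nonneg (add_nonneg (add_nonneg (h1 _) (h1 _)) (h1 _)) (ih (n - i) (by omega) _)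

theorem rc_pos : ∀ n k, 0 < rc n (k + 1) := by
  intro n
  induction n using Nat.strong_induction_on with
  | _ n ih =>
    intro k
    match n with
    | 0 =>
      rw [rc]
      have : 0 < (k + 1 + 1) / 2 := by omega
      exact_mod_cast this
    | n + 1 =>
      rw [rc_rec]
      apply sum_pos
      · intro i hi
        rw [mem_range] at hi
        have h1 := ih i hi (k + 1)
        have h2 := ih i hi k
        have h3 := rc_nonneg i k
        exact mul_pos (by linarith) (ih (n - i) (by omega) _)
      · exact ⟨0, mem_range.mpr (Nat.succ_pos _)⟩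

theorem rc_zero_right (n : ℕ) : rc n 0 = 0 := by
  cases n <;> simp [rc]

/-- Log-convexity up to index `n`. -/
def LC (u : ℕ → ℚ) (n : ℕ) : Prop := ∀ i j, i ≤ j → j + 1 ≤ n → u (i + 1) * u j ≤ u i * u (j + 1)

theorem rc_LC : ∀ n k, LC (fun m => rc m k) n := by
  intro n
  induction n with
  | zero => intro k i j _ h; omega
  | succ n ih =>
    intro k
    cases k with
    | zero =>
      intro i j _ _
      simp only [rc_zero_right]
      norm_num
    | succ k =>
      set u : ℕ → ℚ := fun m => rc m (k + 1) with hudef
      set f : ℕ → ℚ := fun m => rc m (k + 2) + rc m (k + 1) + rc m k with hfdef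
      have hupos : ∀ m, 0 < u m := fun m => rc_pos m k
      have hfpos : ∀ m, 0 < f m := fun m => by
        have h1 := rc_pos m (k + 1)
        have h2 := rc_pos m k
        have h3 := rc_nonneg m k
        simp only [hfdef]
        have h1' : 0 < rc m (k + 2) := h1
        linarith
      have hrec : ∀ m, u (m + 1) = ∑ i ∈ range (m + 1), f i * u (m - i) := fun m => rc_rec m k
      have hu := ih (k + 1)
      -- f is log-convex up to n
      have hf : ∀ i j, i ≤ j → j + 1 ≤ n → f (i + 1) * f j ≤ f i * f (j + 1) := by
        -- reduce to single steps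
        have step : ∀ j, j + 2 ≤ n → f (j + 1) ^ 2 ≤ f j * f (j + 2) := by
          intro j hj
          have a1 := ih (k + 2) j (j + 1) (by omega) (by omega)
          have a2 := ih (k + 1) j (j + 1) (by omega) (by omega)
          have a3 := ih k j (j + 1) (by omega) (by omega)
          have hcs := Finset.sum_sq_le_sum_mul_sum_of_sq_le_mul (R := ℚ) (univ : Finset (Fin 3))
            (r := ![rc (j + 1) (k + 2), rc (j + 1) (k + 1), rc (j + 1) k])
            (f := ![rc j (k + 2), rc j (k + 1), rc j k])
            (g := ![rc (j + 2) (k + 2), rc (j + 2) (k + 1), rc (j + 2) k])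
            (by
              intro i _
              fin_cases i
              · exact rc_nonneg _ _
              · exact rc_nonneg _ _
              · exact rc_nonneg _ _)
            (by
              intro i _
              fin_cases i
              · exact rc_nonneg _ _
              · exact rc_nonneg _ _
              · exact rc_nonneg _ _)
            (by
              intro i _
              fin_cases i
              · change rc (j + 1) (k + 2) ^ 2 ≤ rc j (k + 2) * rc (j + 2) (k + 2)
                rw [sq]; exact a1
              · change rc (j + 1) (k + 1) ^ 2 ≤ rc j (k + 1) * rc (j + 2) (k + 1)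
                rw [sq]; exact a2
              · change rc (j + 1) k ^ 2 ≤ rc j k * rc (j + 2) k
                rw [sq]; exact a3)
          simp only [Fin.sum_univ_three, Matrix.cons_val_zero, Matrix.cons_val_one,
            Matrix.cons_val_two, Matrix.head_cons, Matrix.tail_cons] at hcs
          exact hcs
        intro i j hij
        induction j, hij using Nat.le_induction with
        | base => intro _; exact (mul_comm _ _).le
        | succ j hij ihj =>
          intro hj
          have e1 := ihj (by omega)
          have e2 := step j (by omega)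
          have p1 := hfpos j
          have p2 := hfpos (j + 1)
          have p3 := hfpos i
          -- f(i+1) f(j+1) f(j) <= f(i) f(j+1)^2 <= f(i) f(j) f(j+2)
          have e3 : f j * (f (i + 1) * f (j + 1)) ≤ f j * (f i * f (j + 1 + 1)) := by
            calc f j * (f (i + 1) * f (j + 1)) = (f (i + 1) * f j) * f (j + 1) := by ring
              _ ≤ (f i * f (j + 1)) * f (j + 1) := mul_le_mul_of_nonneg_right e1 p2.le
              _ = f i * (f (j + 1)) ^ 2 := by ring
              _ ≤ f i * (f j * f (j + 2)) := mul_le_mul_of_nonneg_left e2 p3.le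
              _ = f j * (f i * f (j + 1 + 1)) := by ring
          exact le_of_mul_le_mul_left e3 p1
      intro i j hij hj
      rcases Nat.lt_or_ge j n with hjn | hjn
      · exact hu i j hij (by omega)
      · have hj' : j = n := by omega
        subst hj'
        rcases Nat.eq_or_lt_of_le hij with rfl | hlt
        · exact (mul_comm _ _).le
        · obtain ⟨p, rfl⟩ : ∃ p, j = p + 1 := ⟨j - 1, by omega⟩
          have main := dbe_step u f hfpos hupos hrec p
            (fun i hi => by
              have := hu i p hi (by omega)
              simp only at this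
              calc u (i + 1) * u p ≤ u i * u (p + 1) := this
                _ = u (p + 1) * u i := mul_comm _ _)
            (fun i hi => by
              have := hf i p (by omega) (by omega)
              linarith)
          have e1 : u (i + 1) * u p ≤ u i * u (p + 1) := hu i p (by omega) (by omega)
          have p1 := hupos p
          have p2 := hupos (p + 1)
          have p3 := hupos i
          have e3 : u p * (u (i + 1) * u (p + 1)) ≤ u p * (u i * u (p + 1 + 1)) := by
            calc u p * (u (i + 1) * u (p + 1)) = (u (i + 1) * u p) * u (p + 1) := by ring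
              _ ≤ (u i * u (p + 1)) * u (p + 1) := mul_le_mul_of_nonneg_right e1 p2.le
              _ = u i * (u (p + 1)) ^ 2 := by ring
              _ ≤ u i * (u p * u (p + 2)) := mul_le_mul_of_nonneg_left main p3.le
              _ = u p * (u i * u (p + 1 + 1)) := by ring
          exact le_of_mul_le_mul_left e3 p1

theorem rc_logconvex (n k : ℕ) : rc (n + 1) k ^ 2 ≤ rc n k * rc (n + 2) k := by
  have := rc_LC (n + 2) k n (n + 1) (by omega) (by omega)
  rw [sq]; exact this

theorem mm_eq_sum (N n : ℕ) : mm N n = ∑ k ∈ range (2 * N), rc n k := by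
  unfold mm MN rs
  rw [map_sum]
  apply sum_congr rfl
  intro k _
  rw [PowerSeries.coeff_mk]

theorem mm_logconvex (N n : ℕ) : mm N (n + 1) ^ 2 ≤ mm N n * mm N (n + 2) := by
  rw [mm_eq_sum, mm_eq_sum, mm_eq_sum]
  apply Finset.sum_sq_le_sum_mul_sum_of_sq_le_mul
  · intro i _; exact rc_nonneg _ _
  · intro i _; exact rc_nonneg _ _
  · intro i _; exact rc_logconvex n i

theorem PP_logconvex (N : ℕ) (hN : 1 ≤ N) (n : ℕ) :
    PP (N : ℝ) (n + 1) ^ 2 ≤ PP (N : ℝ) n * PP (N : ℝ) (n + 2) := by
  rw [← mm_eq_PP N hN, ← mm_eq_PP N hN, ← mm_eq_PP N hN]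
  exact_mod_cast mm_logconvex N n

end Pool.Agent.H63.Quad
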