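import Pool.Agent.H63.Quad.InvCount
import Pool.Agent.H63.Quad.BDefs
import Pool.Agent.H48.Quad.Aa
import Pool.Agent.H48.Quad.Ab
import Pool.Agent.H82.Quad.Main
import Pool.Agent.H80.Quad.Ad

set_option autoImplicit false

/-!
# Part A: the frozen counting set gives the coefficients of `Qp n`
-/

namespace Pool.Agent.H63.Quad

open Finset

theorem AA_eq (N n : ℕ) :
    (AA N n : ℚ) * (2 ^ n * (n.factorial : ℚ)) * Ev N 1 = ((2 * n).factorial : ℚ) * Ev N (ps N 2 ^ n) := by
  classical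
  have h1 : (AA N n : ℚ) = ∑ β ∈ univ.filter (fun β : Equiv.Perm (Fin (2 * n)) => Inv2 β), (VV N β : ℚ) := by
    unfold AA VV
    rw [Fintype.sum_prod_type_right, sum_filter]
    push_cast
    refine sum_congr rfl fun β _ => ?_
    by_cases h : Inv2 β
    · simp only [if_pos h]
    · simp only [if_neg h, sum_const_zero]
  rw [h1, sum_mul, sum_mul]
  have h2 : ∀ β ∈ univ.filter (fun β : Equiv.Perm (Fin (2 * n)) => Inv2 β),
      (VV N β : ℚ) * (2 ^ n * (n.factorial : ℚ)) * Ev N 1
        = (2 ^ n * (n.factorial : ℚ)) * Ev N (ps N 2 ^ n) := by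
    intro β hβ
    have h3 := Pool.Agent.H82.Quad.VV_inv2 N n β (mem_filter.1 hβ).2
    rw [← h3]; ring
  rw [sum_congr rfl h2, sum_const, nsmul_eq_mul, ← mul_assoc]
  congr 1
  exact_mod_cast inv2_card n

/-- Coefficients of the partition function. -/
theorem z_rec (N : ℕ) (hN : 1 ≤ N) (n : ℕ) :
    ((N : ℚ) ^ 2 + 2 * n) * PowerSeries.coeff n (ZN N)
      = ∑ p ∈ antidiagonal n, mm N p.1 * PowerSeries.coeff p.2 (ZN N) := by
  have h := congrArg (PowerSeries.coeff n) (Pool.Agent.H80.Quad.Ad hN)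
  rw [PowerSeries.coeff_mul, PowerSeries.coeff_mk, Pool.Agent.H82.Quad.Ev_ps_one] at h
  have h2 : PowerSeries.coeff n (ZN N) = Ev N (ps N 2 ^ n) / (2 ^ n * n.factorial) := by
    rw [ZN, PowerSeries.coeff_mk]
  rw [← mul_div_assoc', ← h2] at h
  exact h

theorem AA_z (N n : ℕ) : (AA N n : ℚ) * Ev N 1 = ((2 * n).factorial : ℚ) * PowerSeries.coeff n (ZN N) := by
  have h := AA_eq N n
  rw [ZN, PowerSeries.coeff_mk]
  have h0 : (2 ^ n * (n.factorial : ℚ)) ≠ 0 := by
    have := Nat.factorial_pos n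
    positivity
  field_simp
  linarith

/-- The weighted numbers of connected pairs are the coefficients of `MN N`. -/
theorem KK_mm (N : ℕ) (hN : 1 ≤ N) (n : ℕ) (hn : 1 ≤ n) :
    (KK N n : ℚ) = ((2 * n - 1).factorial : ℚ) * mm N n := by
  have hE : Ev N 1 ≠ 0 := (Pool.Agent.H80.Quad.Ev_one_pos hN).ne'
  set z : ℕ → ℚ := fun n => PowerSeries.coeff n (ZN N) with hz
  have hz0 : z 0 = Ev N 1 := by simp [hz, ZN]
  induction n using Nat.strong_induction_on with
  | _ n ih =>
    -- the recurrence for `AA`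
    have hA := congrArg (fun k : ℕ => (k : ℚ) * Ev N 1) (Pool.Agent.H48.Quad.AA_rec N n hn)
    simp only [AA_z] at hA
    push_cast at hA
    have hterm : ∀ j ∈ Icc 1 n, ((2 * n - 1).choose (2 * j - 1) : ℚ) * (KK N j : ℚ) * (AA N (n - j) : ℚ) * Ev N 1
        = ((2 * n - 1).factorial : ℚ) * ((KK N j : ℚ) / ((2 * j - 1).factorial : ℚ) * z (n - j)) := by
      intro j hj
      obtain ⟨hj1, hj2⟩ := mem_Icc.1 hj
      rw [mul_assoc _ (AA N (n - j) : ℚ), AA_z]
      rw [Nat.cast_choose ℚ (show 2 * j - 1 ≤ 2 * n - 1 by omega),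
        show 2 * n - 1 - (2 * j - 1) = 2 * (n - j) by omega]
      have e1 : ((2 * j - 1).factorial : ℚ) ≠ 0 := by exact_mod_cast (Nat.factorial_pos _).ne'
      have e2 : ((2 * (n - j)).factorial : ℚ) ≠ 0 := by exact_mod_cast (Nat.factorial_pos _).ne'
      field_simp
      rfl
    rw [sum_mul, sum_congr rfl hterm, ← mul_sum] at hA
    have hf : ((2 * n).factorial : ℚ) = 2 * n * ((2 * n - 1).factorial : ℚ) := by
      have : (2 * n).factorial = 2 * n * (2 * n - 1).factorial := (Nat.mul_factorial_pred (by omega)).symm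
      rw [this]; push_cast; ring
    have e0 : ((2 * n - 1).factorial : ℚ) ≠ 0 := by exact_mod_cast (Nat.factorial_pos _).ne'
    have hA' : 2 * (n : ℚ) * z n = ∑ j ∈ Icc 1 n, (KK N j : ℚ) / ((2 * j - 1).factorial : ℚ) * z (n - j) := by
      have : ((2 * n - 1).factorial : ℚ) * (2 * (n : ℚ) * z n) = ((2 * n - 1).factorial : ℚ) *
          ∑ j ∈ Icc 1 n, (KK N j : ℚ) / ((2 * j - 1).factorial : ℚ) * z (n - j) := by
        rw [← hA, hf]; ring
      exact mul_left_cancel₀ e0 this
    -- the recurrence for `mm`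
    have hM := z_rec N hN n
    rw [Finset.Nat.sum_antidiagonal_eq_sum_range_succ_mk, sum_range_succ'] at hM
    simp only [mm_zero N hN, Nat.sub_zero] at hM
    have hM' : 2 * (n : ℚ) * z n = ∑ j ∈ Icc 1 n, mm N j * z (n - j) := by
      have e : ∑ j ∈ Icc 1 n, mm N j * z (n - j) = ∑ k ∈ range n, mm N (k + 1) * z (n - (k + 1)) := by
        rw [← Finset.Ico_succ_right_eq_Icc, Finset.sum_Ico_eq_sum_range]
        refine sum_congr (by simp) fun k _ => by rw [add_comm 1 k]
      rw [e]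
      have : z n = PowerSeries.coeff n (ZN N) := rfl
      rw [← this] at hM
      change _ = ∑ k ∈ range n, mm N (k + 1) * z (n - (k + 1)) + _ * z n at hM
      linarith
    rw [hM'] at hA'
    obtain ⟨m, rfl⟩ : ∃ m, n = m + 1 := ⟨n - 1, by omega⟩
    rw [sum_Icc_succ_top (by omega), sum_Icc_succ_top (by omega)] at hA'
    have hc : ∑ j ∈ Icc 1 m, (KK N j : ℚ) / ((2 * j - 1).factorial : ℚ) * z (m + 1 - j)
        = ∑ j ∈ Icc 1 m, mm N j * z (m + 1 - j) := by
      refine sum_congr rfl fun j hj => ?_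
      obtain ⟨hj1, hj2⟩ := mem_Icc.1 hj
      rw [ih j (by omega) hj1]
      have e1 : ((2 * j - 1).factorial : ℚ) ≠ 0 := by exact_mod_cast (Nat.factorial_pos _).ne'
      field_simp
    rw [hc, Nat.sub_self, hz0] at hA'
    have h5 := mul_right_cancel₀ hE (add_left_cancel hA')
    rw [h5]
    field_simp

/-! ### The polynomial identity -/

theorem Qp_natDegree (n : ℕ) : 2 * (Qp n).natDegree ≤ n := by
  induction n using Nat.strong_induction_on with
  | _ n ih =>
    match n, ih with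
    | 0, _ => simp [Qp]
    | 1, _ => rw [Qp_one_eq]; simp
    | m + 2, ih =>
      have h1 := ih (m + 1) (by omega)
      have h0 := ih m (by omega)
      have hk : ∀ k, (m + 2) / 2 < k → (Qp (m + 2)).coeff k = 0 := by
        intro k hk
        rw [Qp, Polynomial.coeff_C_mul, Polynomial.coeff_add, Polynomial.coeff_add, Polynomial.coeff_C_mul,
          mul_assoc (Polynomial.C _) Polynomial.X, Polynomial.coeff_C_mul, three_eq_C,
          Polynomial.coeff_C_mul, Polynomial.finsetSum_coeff]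
        rw [Polynomial.coeff_eq_zero_of_natDegree_lt (p := Qp (m + 1)) (by omega)]
        obtain ⟨k', rfl⟩ : ∃ k', k = k' + 1 := ⟨k - 1, by omega⟩
        rw [Polynomial.coeff_X_mul, Polynomial.coeff_eq_zero_of_natDegree_lt (p := Qp m) (by omega)]
        rw [sum_eq_zero]
        · ring
        · intro i _
          rw [mul_assoc, Polynomial.coeff_C_mul]
          have h2 := ih i (by omega)
          have h3 := ih (m - i) (by omega)
          rw [Polynomial.coeff_eq_zero_of_natDegree_lt, mul_zero]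
          refine lt_of_le_of_lt Polynomial.natDegree_mul_le ?_
          omega
      have : (Qp (m + 2)).natDegree ≤ (m + 2) / 2 := by
        rw [Polynomial.natDegree_le_iff_coeff_eq_zero]
        exact hk
      omega

/-- Number of connected pairs, in terms of the coefficients of `Qp n`. -/
theorem TT_coeff (n : ℕ) (hn : 1 ≤ n) (g : ℕ) (hg : 2 * g ≤ n) :
    ((TT n (n + 2 - 2 * g)).ncard : ℝ) = ((2 * n - 1).factorial : ℝ) * (Qp n).coeff g := by
  set P1 : Polynomial ℝ := ∑ k ∈ range (4 * n + 1), Polynomial.C ((TT n k).ncard : ℝ) * Polynomial.X ^ k with hP1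
  set P2 : Polynomial ℝ := ∑ h ∈ range (n / 2 + 1), Polynomial.C (((2 * n - 1).factorial : ℝ) * (Qp n).coeff h)
    * Polynomial.X ^ (n + 2 - 2 * h) with hP2
  have hev : ∀ N : ℕ, 1 ≤ N → P1.eval (N : ℝ) = P2.eval (N : ℝ) := by
    intro N hN
    have hN' : (N : ℝ) ≠ 0 := by positivity
    have e1 : P1.eval (N : ℝ) = (KK N n : ℝ) := by
      rw [Pool.Agent.H48.Quad.KK_eq, hP1, Polynomial.eval_finsetSum]
      push_cast
      refine sum_congr rfl fun k _ => by simp
    have e2 : (KK N n : ℝ) = ((2 * n - 1).factorial : ℝ) * PP (N : ℝ) n := by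
      have h := congrArg (fun q : ℚ => (q : ℝ)) (KK_mm N hN n hn)
      simp only [Rat.cast_mul, Rat.cast_natCast, mm_eq_PP N hN n] at h
      exact h
    rw [e1, e2, PP, hP2, Polynomial.eval_finsetSum,
      Polynomial.eval_eq_sum_range' (n := n / 2 + 1) (by have := Qp_natDegree n; omega), mul_sum, mul_sum]
    refine sum_congr rfl fun h hh => ?_
    have hh' : 2 * h ≤ n + 2 := by have := mem_range.1 hh; omega
    rw [Polynomial.eval_mul, Polynomial.eval_C, Polynomial.eval_pow, Polynomial.eval_X]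
    have e3 : (N : ℝ) ^ (n + 2) = (N : ℝ) ^ (n + 2 - 2 * h) * (N : ℝ) ^ (2 * h) := by
      rw [← pow_add]; congr 1; omega
    rw [e3, one_div, inv_pow, ← pow_mul]
    field_simp
  have hP : P1 = P2 := by
    refine Polynomial.eq_of_infinite_eval_eq P1 P2 ?_
    refine Set.Infinite.mono (s := Set.range fun k : ℕ => ((k + 1 : ℕ) : ℝ)) ?_ ?_
    · rintro _ ⟨k, rfl⟩
      exact hev (k + 1) (by omega)
    · refine Set.infinite_range_of_injective fun a b h => ?_
      have : ((a + 1 : ℕ) : ℝ) = ((b + 1 : ℕ) : ℝ) := h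
      have := Nat.cast_injective this
      omega
  have hc := congrArg (fun p : Polynomial ℝ => p.coeff (n + 2 - 2 * g)) hP
  simp only [hP1, hP2, Polynomial.finsetSum_coeff, Polynomial.coeff_C_mul, Polynomial.coeff_X_pow] at hc
  rw [sum_eq_single (n + 2 - 2 * g), sum_eq_single g] at hc
  · simpa using hc
  · intro h hh hne
    rw [if_neg, mul_zero]
    have := mem_range.1 hh
    omega
  · intro hh
    exfalso; apply hh; rw [mem_range]; omega
  · intro k _ hne
    rw [if_neg (fun h => hne h.symm), mul_zero]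
  · intro hh
    exfalso; apply hh; rw [mem_range]; omega

/-- The frozen count. -/
theorem frozen_count (n : ℕ) (hn : 1 ≤ n) (g : ℕ) (hg : 2 * g ≤ n) :
    (Set.ncard {p : Equiv.Perm (Fin (4 * n)) × Equiv.Perm (Fin (4 * n)) |
            (∀ d, p.2 (p.2 d) = d ∧ p.2 d ≠ d) ∧
            (∀ d e, ∃ w ∈ Subgroup.closure ({p.1, p.2} : Set (Equiv.Perm (Fin (4 * n)))),
              w d = e) ∧
            (∀ d, Function.minimalPeriod (p.1 * p.2) d = 4) ∧
            (∃ c : Fin (4 * n) → Bool, ∀ d, c (p.1 d) = c d ∧ c (p.2 d) ≠ c d) ∧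
            (∑ d, (1 : ℚ) / (Function.minimalPeriod p.1 d : ℚ)) =
              (n : ℚ) + 2 - 2 * (g : ℚ)} : ℝ)
          / ((4 * n - 1).factorial : ℝ) = (Qp n).coeff g := by
  have hq : (n : ℚ) + 2 - 2 * (g : ℚ) = ((n + 2 - 2 * g : ℕ) : ℚ) := by
    rw [Nat.cast_sub (by omega)]; push_cast; ring
  rw [hq]
  change ((Frz n (n + 2 - 2 * g)).ncard : ℝ) / _ = _
  have h1 := Pool.Agent.H48.Quad.frz_card n (n + 2 - 2 * g) hn
  have h1' : ((Frz n (n + 2 - 2 * g)).ncard : ℝ) * ((2 * n - 1).factorial : ℝ)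
      = ((TT n (n + 2 - 2 * g)).ncard : ℝ) * ((4 * n - 1).factorial : ℝ) := by exact_mod_cast h1
  rw [TT_coeff n hn g hg] at h1'
  have e1 : ((2 * n - 1).factorial : ℝ) ≠ 0 := by exact_mod_cast (Nat.factorial_pos _).ne'
  have e2 : ((4 * n - 1).factorial : ℝ) ≠ 0 := by exact_mod_cast (Nat.factorial_pos _).ne'
  rw [div_eq_iff e2]
  have : ((2 * n - 1).factorial : ℝ) * ((Frz n (n + 2 - 2 * g)).ncard : ℝ)
      = ((2 * n - 1).factorial : ℝ) * ((Qp n).coeff g * ((4 * n - 1).factorial : ℝ)) := by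
    rw [mul_comm, h1']; ring
  exact mul_left_cancel₀ e1 this

end Pool.Agent.H63.Quad
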