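import Pool.Agent.H63.Quad.PartA

set_option autoImplicit false

/-!
# Reduction of the frozen statement to the coefficients of `Qp n`
-/

namespace Pool.Agent.H63.Quad

open Filter Topology

/-- The asymptotic statement for the coefficients of `Qp n`. -/
def PartB : Prop := ∀ θ : ℝ, 0 < θ → θ < 1 / 2 → ∃ r : ℝ, ∀ gs : ℕ → ℕ,
  Tendsto (fun n => (gs n : ℝ) / n) atTop (𝓝 θ) →
  Tendsto (fun n => (Qp n).coeff (gs n) / ((n : ℝ) ^ 2 * (Qp n).coeff (gs n - 1))) atTop (𝓝 r)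

theorem reduce (hB : PartB) :
    ∀ Q : ℕ → ℕ → ℝ,
      (∀ n g : ℕ, Q n g =
        (Set.ncard {p : Equiv.Perm (Fin (4 * n)) × Equiv.Perm (Fin (4 * n)) |
            (∀ d, p.2 (p.2 d) = d ∧ p.2 d ≠ d) ∧
            (∀ d e, ∃ w ∈ Subgroup.closure ({p.1, p.2} : Set (Equiv.Perm (Fin (4 * n)))),
              w d = e) ∧
            (∀ d, Function.minimalPeriod (p.1 * p.2) d = 4) ∧
            (∃ c : Fin (4 * n) → Bool, ∀ d, c (p.1 d) = c d ∧ c (p.2 d) ≠ c d) ∧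
            (∑ d, (1 : ℚ) / (Function.minimalPeriod p.1 d : ℚ)) =
              (n : ℚ) + 2 - 2 * (g : ℚ)} : ℝ)
          / ((4 * n - 1).factorial : ℝ)) →
      ∀ θ : ℝ, 0 < θ → θ < 1 / 2 → ∃ r : ℝ, ∀ gs : ℕ → ℕ,
        Tendsto (fun n => (gs n : ℝ) / n) atTop (𝓝 θ) →
        Tendsto (fun n => Q n (gs n) / ((n : ℝ) ^ 2 * Q n (gs n - 1))) atTop (𝓝 r) := by
  intro Q hQ θ h0 h1
  obtain ⟨r, hr⟩ := hB θ h0 h1
  refine ⟨r, fun gs hgs => ?_⟩
  refine (hr gs hgs).congr' ?_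
  have h2 : ∀ᶠ n : ℕ in atTop, (gs n : ℝ) / n < 1 / 2 := hgs.eventually_lt_const h1
  filter_upwards [h2, eventually_ge_atTop 1] with n hn hn1
  have hn' : (0 : ℝ) < n := by exact_mod_cast hn1
  rw [div_lt_iff₀ hn'] at hn
  have h3 : 2 * gs n ≤ n := by
    have : 2 * (gs n : ℝ) ≤ n := by linarith
    exact_mod_cast this
  rw [hQ, hQ, frozen_count n hn1 (gs n) h3, frozen_count n hn1 (gs n - 1) (by omega)]

end Pool.Agent.H63.Quad
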