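import Pool.Agent.H63.Quad.BPlan

set_option autoImplicit false

/-!
# The limit function `aa` and the planar series
-/

namespace Pool.Agent.H63.Quad

open Finset Filter Topology Polynomial

theorem FF_zero : FF 0 = 0 := by simp [FF]

theorem FF_twelfth : FF (1 / 12) = 1 := by
  unfold FF
  rw [show (1 : ℝ) - 12 * (1 / 12) = 0 by norm_num, Real.sqrt_zero]; norm_num

theorem FF_strictMono : StrictMono FF := by
  intro a b h
  unfold FF
  have : Real.sqrt (1 - 12 * b) ≤ Real.sqrt (1 - 12 * a) := Real.sqrt_le_sqrt (by linarith)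
  linarith

theorem FF_cont : Continuous FF := by
  unfold FF
  fun_prop

theorem FF_nonneg (a : ℝ) (ha : 0 ≤ a) : 0 ≤ FF a := by
  rw [← FF_zero]; exact FF_strictMono.monotone ha

/-- The function whose level `1` defines the limit. -/
noncomputable def GG (a τ : ℝ) : ℝ := FF a + 4 * τ ^ 2 * a ^ 2

theorem GG_lt (τ a b : ℝ) (ha : 0 ≤ a) (h : a < b) : GG a τ < GG b τ := by
  unfold GG
  have h1 := FF_strictMono h
  have h2 : a ^ 2 ≤ b ^ 2 := by nlinarith
  have h3 : 4 * τ ^ 2 * a ^ 2 ≤ 4 * τ ^ 2 * b ^ 2 := mul_le_mul_of_nonneg_left h2 (by positivity)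
  linarith

theorem GG_le (τ a b : ℝ) (ha : 0 ≤ a) (h : a ≤ b) : GG a τ ≤ GG b τ := by
  rcases h.eq_or_lt with h | h
  · rw [h]
  · exact (GG_lt τ a b ha h).le

theorem GG_cont (τ : ℝ) : Continuous fun a => GG a τ := by
  unfold GG
  exact FF_cont.add (by fun_prop)

theorem GG_cont' (a : ℝ) : Continuous fun τ => GG a τ := by
  unfold GG
  fun_prop

theorem exists_root (τ : ℝ) : ∃ a : ℝ, 0 < a ∧ a ≤ 1 / 12 ∧ GG a τ = 1 := by
  have h0 : GG 0 τ = 0 := by simp [GG, FF_zero]
  have h1 : 1 ≤ GG (1 / 12) τ := by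
    unfold GG; rw [FF_twelfth]; nlinarith [sq_nonneg τ]
  have hI := intermediate_value_Icc (show (0 : ℝ) ≤ 1 / 12 by norm_num) (GG_cont τ).continuousOn
  obtain ⟨a, ha, hv⟩ := hI ⟨by rw [h0]; norm_num, h1⟩
  have hv' : GG a τ = 1 := hv
  refine ⟨a, lt_of_le_of_ne ha.1 ?_, ha.2, hv'⟩
  rintro rfl
  rw [h0] at hv'; norm_num at hv'

/-- The limit function. -/
noncomputable def aa (τ : ℝ) : ℝ := (exists_root τ).choose

theorem aa_pos (τ : ℝ) : 0 < aa τ := (exists_root τ).choose_spec.1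
theorem aa_le (τ : ℝ) : aa τ ≤ 1 / 12 := (exists_root τ).choose_spec.2.1
theorem aa_eq (τ : ℝ) : GG (aa τ) τ = 1 := (exists_root τ).choose_spec.2.2

theorem lt_aa_iff (τ b : ℝ) (hb : 0 ≤ b) : b < aa τ ↔ GG b τ < 1 := by
  constructor
  · intro h; rw [← aa_eq τ]; exact GG_lt τ b _ hb h
  · intro h
    by_contra hc
    push Not at hc
    have := GG_le τ (aa τ) b (aa_pos τ).le hc
    rw [aa_eq] at this; linarith

theorem aa_lt_iff (τ b : ℝ) (hb : 0 ≤ b) : aa τ < b ↔ 1 < GG b τ := by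
  constructor
  · intro h; rw [← aa_eq τ]; exact GG_lt τ _ b (aa_pos τ).le h
  · intro h
    by_contra hc
    push Not at hc
    have := GG_le τ b (aa τ) hb hc
    rw [aa_eq] at this; linarith

theorem aa_cont : Continuous aa := by
  rw [continuous_iff_continuousAt]
  intro τ
  refine tendsto_order.2 ⟨fun b hb => ?_, fun b hb => ?_⟩
  · rcases lt_or_ge b 0 with h0 | h0
    · exact Eventually.of_forall fun t => h0.trans (aa_pos t)
    · have h1 : GG b τ < 1 := (lt_aa_iff τ b h0).1 hb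
      have h2 : ∀ᶠ t in 𝓝 τ, GG b t < 1 := (GG_cont' b).continuousAt.eventually_lt_const h1
      filter_upwards [h2] with t ht using (lt_aa_iff t b h0).2 ht
  · have h0 : 0 ≤ b := (aa_pos τ).le.trans hb.le
    have h1 : 1 < GG b τ := (aa_lt_iff τ b h0).1 hb
    have h2 : ∀ᶠ t in 𝓝 τ, 1 < GG b t := (GG_cont' b).continuousAt.eventually_const_lt h1
    filter_upwards [h2] with t ht using (aa_lt_iff t b h0).2 ht

theorem rootProps : RootProps aa where
  pos := aa_pos
  le := aa_le
  eq := fun τ => aa_eq τ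
  lt := fun τ hτ => by
    rw [aa_lt_iff τ _ (by norm_num)]
    unfold GG; rw [FF_twelfth]; nlinarith [sq_pos_of_pos hτ]
  cont := aa_cont
  zero := by
    refine le_antisymm (aa_le 0) ?_
    by_contra hc
    push Not at hc
    rw [aa_lt_iff 0 _ (by norm_num)] at hc
    unfold GG at hc; rw [FF_twelfth] at hc; norm_num at hc
  anti := by
    intro s hs t ht hst
    by_contra hc
    push Not at hc
    have h1 := GG_lt s (aa s) (aa t) (aa_pos s).le hc
    rw [aa_eq] at h1
    have h2 : GG (aa t) s ≤ GG (aa t) t := by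
      unfold GG
      have h3 : s ^ 2 ≤ t ^ 2 := by
        have hs' : 0 ≤ s := hs
        nlinarith
      have h4 : s ^ 2 * aa t ^ 2 ≤ t ^ 2 * aa t ^ 2 := mul_le_mul_of_nonneg_right h3 (by positivity)
      linarith
    rw [aa_eq] at h2
    linarith
  below := fun τ b hb h => (lt_aa_iff τ b hb).1 h
  above := fun τ b h _ => (aa_lt_iff τ b ((aa_pos τ).le.trans h.le)).1 h
  large := fun τ hτ => by
    have h1 : GG (aa τ) τ = 1 := aa_eq τ
    unfold GG at h1
    have h2 := FF_nonneg (aa τ) (aa_pos τ).le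
    have h3 : (2 * τ * aa τ) ^ 2 ≤ 1 := by nlinarith
    have h4 : 0 ≤ 2 * τ * aa τ := by have := aa_pos τ; positivity
    nlinarith

/-! ### The planar series -/

theorem catalan_rec (n : ℕ) : ((n : ℝ) + 2) * (catalan (n + 1) : ℝ) = 2 * (2 * n + 1) * (catalan n : ℝ) := by
  have h1 := succ_mul_catalan_eq_centralBinom (n + 1)
  have h2 := Nat.succ_mul_centralBinom_succ n
  have h3 := succ_mul_catalan_eq_centralBinom n
  have h1' : ((n : ℝ) + 2) * (catalan (n + 1) : ℝ) = (Nat.centralBinom (n + 1) : ℝ) := by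
    have : (((n + 1 + 1) * catalan (n + 1) : ℕ) : ℝ) = ((Nat.centralBinom (n + 1) : ℕ) : ℝ) := by
      exact_mod_cast h1
    push_cast at this
    linarith
  have h2' : ((n : ℝ) + 1) * (Nat.centralBinom (n + 1) : ℝ) = 2 * (2 * n + 1) * (Nat.centralBinom n : ℝ) := by
    exact_mod_cast h2
  have h3' : ((n : ℝ) + 1) * (catalan n : ℝ) = (Nat.centralBinom n : ℝ) := by exact_mod_cast h3
  rw [h1']
  have h4 : ((n : ℝ) + 1) * (Nat.centralBinom (n + 1) : ℝ)
      = ((n : ℝ) + 1) * (2 * (2 * n + 1) * (catalan n : ℝ)) := by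
    rw [h2', ← h3']; ring
  exact mul_left_cancel₀ (by positivity) h4

theorem catalan_conv (m : ℕ) : ∑ p ∈ antidiagonal m, (catalan (p.1 + 1) : ℝ) * (catalan (p.2 + 1) : ℝ)
    = (catalan (m + 3) : ℝ) - 2 * (catalan (m + 2) : ℝ) := by
  have h := catalan_succ' (m + 2)
  rw [Finset.Nat.antidiagonal_succ_succ'] at h
  simp only [Finset.sum_cons, Finset.sum_map, Function.Embedding.prodMap, Function.Embedding.coeFn_mk,
    Prod.map, catalan_zero, one_mul, mul_one] at h
  have h' : (catalan (m + 3) : ℝ) = (catalan (m + 2) : ℝ) + ((catalan (m + 2) : ℝ)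
      + ∑ p ∈ antidiagonal m, (catalan (p.1 + 1) : ℝ) * (catalan (p.2 + 1) : ℝ)) := by
    exact_mod_cast h
  linarith

theorem planar (n : ℕ) : (2 * (n : ℝ) + 1) * (Qp n).coeff 0 = 3 ^ n * (catalan (n + 1) : ℝ) := by
  induction n using Nat.strong_induction_on with
  | _ n ih =>
    match n, ih with
    | 0, _ => simp [Qp]
    | 1, _ =>
      rw [Qp_one_eq]
      have : catalan 2 = 2 := catalan_two
      rw [this]; simp; norm_num
    | m + 2, ih =>
      have hr := Qp_eval_rec 0 m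
      simp only [← coeff_zero_eq_eval_zero] at hr
      have h1 := ih (m + 1) (by omega)
      have hconv : ∑ p ∈ antidiagonal m, ((2 * (p.1 : ℝ) + 1) * (Qp p.1).coeff 0)
          * ((2 * (p.2 : ℝ) + 1) * (Qp p.2).coeff 0)
          = 3 ^ m * ((catalan (m + 3) : ℝ) - 2 * (catalan (m + 2) : ℝ)) := by
        rw [← catalan_conv, Finset.mul_sum]
        refine sum_congr rfl fun p hp => ?_
        have hp' := Finset.HasAntidiagonal.mem_antidiagonal.mp hp
        rw [ih p.1 (by omega), ih p.2 (by omega), ← hp', pow_add]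
        ring
      rw [hconv] at hr
      have hc := catalan_rec (m + 2)
      push_cast at hc h1 ⊢
      have h1' : (2 * (m : ℝ) + 3) * (Qp (m + 1)).coeff 0 = 3 ^ (m + 1) * (catalan (m + 2) : ℝ) := by
        have e : (2 * ((m : ℝ) + 1) + 1) = 2 * (m : ℝ) + 3 := by ring
        rw [← e]; exact h1
      have key : ((m : ℝ) + 3) * ((2 * (m + 2) + 1) * (Qp (m + 2)).coeff 0)
          = ((m : ℝ) + 3) * (3 ^ (m + 2) * (catalan (m + 3) : ℝ)) := by
        have e1 : ((m : ℝ) + 3) * ((2 * (m + 2) + 1) * (Qp (m + 2)).coeff 0)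
            = (2 * (m + 2) + 1) * (((m : ℝ) + 3) * (Qp (m + 2)).coeff 0) := by ring
        have hc' : ((m : ℝ) + 4) * (catalan (m + 3) : ℝ) = 2 * (2 * m + 5) * (catalan (m + 2) : ℝ) := by
          have e : catalan (m + 2 + 1) = catalan (m + 3) := rfl
          rw [← e]; linarith
        rw [e1, hr, mul_assoc 4, h1', pow_succ, pow_succ]
        linear_combination (-(3:ℝ) * 3 ^ m) * hc'
      exact mul_left_cancel₀ (by positivity) key

end Pool.Agent.H63.Quad
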