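import Pool.Agent.H63.Quad.Defs

set_option autoImplicit false

/-! Module Ae: the lattice identities satisfied by the series `r_k`. -/

namespace Pool.Agent.H63.Quad

open Finset PowerSeries

/-- `D = t d/dt`. -/
noncomputable def Dt (f : PowerSeries ℚ) : PowerSeries ℚ := X * PowerSeries.derivative ℚ f

theorem Dt_add (f g : PowerSeries ℚ) : Dt (f + g) = Dt f + Dt g := by
  unfold Dt; rw [map_add, mul_add]

theorem Dt_sub (f g : PowerSeries ℚ) : Dt (f - g) = Dt f - Dt g := by
  unfold Dt; rw [map_sub, mul_sub]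

theorem Dt_mul (f g : PowerSeries ℚ) : Dt (f * g) = Dt f * g + f * Dt g := by
  unfold Dt; rw [Derivation.leibniz, smul_eq_mul, smul_eq_mul]; ring

theorem Dt_X : Dt (X : PowerSeries ℚ) = X := by
  unfold Dt; rw [PowerSeries.derivative_X, mul_one]

theorem Dt_C (c : ℚ) : Dt (C c) = 0 := by
  unfold Dt; rw [PowerSeries.derivative_C, mul_zero]

theorem Dt_zero : Dt (0 : PowerSeries ℚ) = 0 := by
  unfold Dt; rw [map_zero, mul_zero]

theorem Dt_sum {ι : Type} (s : Finset ι) (f : ι → PowerSeries ℚ) :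
    Dt (∑ i ∈ s, f i) = ∑ i ∈ s, Dt (f i) := by
  unfold Dt; rw [map_sum, mul_sum]

theorem coeff_Dt (n : ℕ) (f : PowerSeries ℚ) : coeff n (Dt f) = n * coeff n f := by
  unfold Dt
  cases n with
  | zero => simp
  | succ n =>
    rw [coeff_succ_X_mul, PowerSeries.coeff_derivative]
    push_cast
    ring

/-- `c_k = ⌈k/2⌉`. -/
noncomputable def cc (k : ℕ) : ℚ := ((k + 1) / 2 : ℕ)

theorem cc_succ_succ (k : ℕ) : cc (k + 2) = cc k + 1 := by
  unfold cc
  have : (k + 2 + 1) / 2 = (k + 1) / 2 + 1 := by omega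
  rw [this]
  push_cast
  ring

theorem rs_zero : rs 0 = 0 := by
  ext n
  unfold rs
  rw [coeff_mk, map_zero]
  cases n with
  | zero => simp [rc]
  | succ n => simp [rc]

theorem rs_succ (k : ℕ) : rs (k + 1) =
    C (cc (k + 1)) + X * (rs (k + 1) * (rs (k + 2) + rs (k + 1) + rs k)) := by
  ext n
  cases n with
  | zero =>
    rw [map_add, coeff_zero_X_mul, add_zero]
    unfold rs cc
    simp [rc]
  | succ n =>
    rw [map_add, coeff_succ_X_mul, coeff_C, if_neg (Nat.succ_ne_zero n), zero_add, coeff_mul]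
    unfold rs
    rw [coeff_mk, rc, Finset.Nat.sum_antidiagonal_eq_sum_range_succ_mk, Finset.sum_range]
    apply Finset.sum_congr rfl
    intro i _
    simp only [coeff_mk, map_add]

/-- `w_k = r_k (r_{k+1} - r_{k-1})`. -/
noncomputable def ww (k : ℕ) : PowerSeries ℚ := rs k * (rs (k + 1) - rs (k - 1))

theorem ww_zero : ww 0 = 0 := by unfold ww; rw [rs_zero, zero_mul]

/-- The defect of the Volterra equation. -/
noncomputable def ee (k : ℕ) : PowerSeries ℚ := 2 * Dt (rs k) + rs k - ww k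

theorem ee_zero : ee 0 = 0 := by
  unfold ee
  rw [ww_zero, rs_zero, Dt_zero]
  ring

theorem key_w (k : ℕ) : ww (k + 1) = rs (k + 1)
    + X * (ww (k + 1) * (rs (k + 2) + rs (k + 1) + rs k)
      + rs (k + 1) * (ww (k + 2) + ww (k + 1) + ww k)) := by
  cases k with
  | zero =>
    have h2 := rs_succ 1
    have h1 := cc_succ_succ 0
    rw [ww_zero]
    unfold ww
    simp only [Nat.reduceAdd, Nat.reduceSub, zero_add, Nat.sub_self] at h1 h2 ⊢
    have hc : (C (cc 2) : PowerSeries ℚ) = 1 := by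
      rw [h1]; unfold cc; simp
    rw [hc] at h2
    have h0 := rs_zero
    generalize rs 0 = r0 at *
    generalize rs 1 = r1 at *
    generalize rs 2 = r2 at *
    generalize rs 3 = r3 at *
    subst h0
    linear_combination r1 * h2
  | succ k =>
    have h2 := rs_succ (k + 2)
    have h0 := rs_succ k
    have h1 : (C (cc (k + 3)) : PowerSeries ℚ) = C (cc (k + 1)) + 1 := by
      rw [cc_succ_succ (k + 1), map_add, map_one]
    unfold ww
    simp only [Nat.add_sub_cancel, show k + 1 + 1 = k + 2 from rfl, show k + 2 + 1 = k + 3 from rfl,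
      show k + 3 + 1 = k + 4 from rfl, show k + 2 - 1 = k + 1 from rfl,
      show k + 3 - 1 = k + 2 from rfl] at h2 h0 ⊢
    rcases k with _ | k
    · have hr := rs_zero
      simp only [zero_add, Nat.zero_sub, Nat.sub_self] at *
      rw [hr] at *
      linear_combination rs 2 * h2 - rs 2 * h0 + rs 2 * h1
    · simp only [show k + 1 + 1 = k + 2 from rfl, show k + 1 + 2 = k + 3 from rfl,
        show k + 1 + 3 = k + 4 from rfl, show k + 1 + 4 = k + 5 from rfl,
        show k + 1 - 1 = k from rfl] at *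
      linear_combination rs (k + 3) * h2 - rs (k + 3) * h0 + rs (k + 3) * h1

theorem ee_succ (k : ℕ) : ee (k + 1) = X * (ee (k + 1) * (rs (k + 2) + rs (k + 1) + rs k)
    + rs (k + 1) * (ee (k + 2) + ee (k + 1) + ee k)) := by
  have h := rs_succ k
  have hD : Dt (rs (k + 1)) = Dt (C (cc (k + 1)) + X * (rs (k + 1) * (rs (k + 2) + rs (k + 1) + rs k))) :=
    congrArg Dt h
  rw [Dt_add, Dt_C, Dt_mul, Dt_X, Dt_mul, Dt_add, Dt_add] at hD
  have hw := key_w k
  unfold ee
  linear_combination 2 * hD - hw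

theorem ee_eq_zero (k : ℕ) : ee k = 0 := by
  have key : ∀ n k, coeff n (ee k) = 0 := by
    intro n
    induction n using Nat.strong_induction_on with
    | _ n ih =>
      intro k
      cases k with
      | zero => rw [ee_zero, map_zero]
      | succ k =>
        rw [ee_succ k]
        cases n with
        | zero => rw [coeff_zero_X_mul]
        | succ n =>
          rw [coeff_succ_X_mul, map_add, coeff_mul, coeff_mul]
          have h1 : ∀ m ≤ n, ∀ j, coeff m (ee j) = 0 := fun m hm j => ih m (by omega) j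
          rw [Finset.sum_eq_zero, Finset.sum_eq_zero, add_zero]
          · rintro ⟨i, j⟩ hij
            rw [Finset.HasAntidiagonal.mem_antidiagonal] at hij
            simp only at hij ⊢
            rw [map_add, map_add, h1 j (by omega), h1 j (by omega), h1 j (by omega)]
            ring
          · rintro ⟨i, j⟩ hij
            rw [Finset.HasAntidiagonal.mem_antidiagonal] at hij
            simp only at hij ⊢
            rw [h1 i (by omega), zero_mul]
  ext n
  rw [key, map_zero]

/-- **Volterra lattice**. -/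
theorem volterra (k : ℕ) : 2 * Dt (rs k) + rs k = ww k := sub_eq_zero.mp (ee_eq_zero k)

theorem sum_ww (m : ℕ) : ∑ k ∈ range (m + 1), ww k = rs m * rs (m + 1) := by
  induction m with
  | zero => simp [ww_zero, rs_zero]
  | succ m ih =>
    rw [sum_range_succ, ih]
    unfold ww
    rw [Nat.add_sub_cancel]
    ring

/-- `(2 D + 1) M_N = r_{2N-1} r_{2N}`. -/
theorem D_MN (N : ℕ) (hN : 1 ≤ N) :
    2 * Dt (MN N) + MN N = rs (2 * N - 1) * rs (2 * N) := by
  unfold MN
  obtain ⟨m, rfl⟩ : ∃ m, N = m + 1 := ⟨N - 1, by omega⟩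
  rw [Dt_sum, mul_sum, ← sum_add_distrib]
  rw [Finset.sum_congr rfl fun k _ => volterra k]
  have : 2 * (m + 1) = (2 * m + 1) + 1 := by ring
  rw [this, sum_ww]
  rfl

theorem cc_even (N : ℕ) : cc (2 * N) = N := by
  unfold cc
  have : (2 * N + 1) / 2 = N := by omega
  rw [this]

theorem cc_odd (N : ℕ) (hN : 1 ≤ N) : cc (2 * N - 1) = N := by
  unfold cc
  have : (2 * N - 1 + 1) / 2 = N := by omega
  rw [this]

/-- The function `u = t r_{2N-1} r_{2N}`. -/
noncomputable def uu (N : ℕ) : PowerSeries ℚ := X * (rs (2 * N - 1) * rs (2 * N))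

section

variable (N : ℕ) (hN : 1 ≤ N)

include hN

theorem eqI : rs (2 * N - 1) = C (N : ℚ) + X * (rs (2 * N - 1) ^ 2 + 2 * rs (2 * N - 1) * rs (2 * N)
    - (2 * Dt (rs (2 * N - 1)) + rs (2 * N - 1))) := by
  obtain ⟨m, rfl⟩ : ∃ m, N = m + 1 := ⟨N - 1, by omega⟩
  have h := rs_succ (2 * m)
  have hv := volterra (2 * m + 1)
  have hc := cc_odd (m + 1) hN
  have e1 : 2 * (m + 1) - 1 = 2 * m + 1 := by omega
  have e2 : 2 * (m + 1) = 2 * m + 2 := by ring
  rw [e1] at hc ⊢
  rw [e2, ← hc]
  unfold ww at hv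
  simp only [Nat.add_sub_cancel] at hv
  linear_combination h + X * hv

theorem eqII : rs (2 * N) = C (N : ℚ) + X * (rs (2 * N) ^ 2 + 2 * rs (2 * N - 1) * rs (2 * N)
    + (2 * Dt (rs (2 * N)) + rs (2 * N))) := by
  obtain ⟨m, rfl⟩ : ∃ m, N = m + 1 := ⟨N - 1, by omega⟩
  have h := rs_succ (2 * m + 1)
  have hv := volterra (2 * m + 2)
  have hc := cc_even (m + 1)
  have e1 : 2 * (m + 1) - 1 = 2 * m + 1 := by omega
  have e2 : 2 * (m + 1) = 2 * m + 2 := by ring
  rw [e2] at hc
  rw [e1, e2, ← hc]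
  unfold ww at hv
  simp only [show 2 * m + 2 - 1 = 2 * m + 1 by omega] at hv
  simp only [show 2 * m + 1 + 1 = 2 * m + 2 from rfl, show 2 * m + 1 + 2 = 2 * m + 3 from rfl,
    show 2 * m + 2 + 1 = 2 * m + 3 from rfl] at *
  linear_combination h - X * hv

theorem Du : 2 * Dt (uu N) = (rs (2 * N) - rs (2 * N - 1)) * (uu N + C (N : ℚ)) := by
  have h1 := eqI N hN
  have h2 := eqII N hN
  unfold uu
  rw [Dt_mul, Dt_X, Dt_mul]
  linear_combination rs (2 * N) * h1 - rs (2 * N - 1) * h2

/-- The candidate for `M_N`. -/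
theorem MN_eq : MN N = (uu N + C (N : ℚ)) * (rs (2 * N - 1) + rs (2 * N))
    - rs (2 * N - 1) * rs (2 * N) := by
  have h1 := eqI N hN
  have h2 := eqII N hN
  have h3 := Du N hN
  have h4 := D_MN N hN
  set a := rs (2 * N - 1) with ha
  set b := rs (2 * N) with hb
  set u := uu N with hu
  have hu' : u = X * (a * b) := rfl
  set c : PowerSeries ℚ := C (N : ℚ) with hc
  set Y := (u + c) * (a + b) - a * b with hY
  have hDY : Dt Y = Dt u * (a + b) + (u + c) * (Dt a + Dt b) - (Dt a * b + a * Dt b) := by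
    rw [hY, Dt_sub, Dt_mul, Dt_add u c, hc, Dt_C, Dt_add, Dt_mul]
    ring
  have hDu : Dt u = X * (a * b) + X * (Dt a * b + a * Dt b) := by
    rw [hu', Dt_mul, Dt_X, Dt_mul]
  -- multiply by X
  have key : X * (2 * Dt Y + Y) = X * (a * b) := by
    rw [hDY, hY]
    linear_combination (u + c) * h1 - (u + c) * h2 + (X * (a + b) - 1) * h3 + 2 * hDu
  have key2 : 2 * Dt Y + Y = a * b := X_mul_injective key
  have hdiff : ∀ n, coeff n (MN N - Y) = 0 := by
    intro n
    have h5 : 2 * Dt (MN N - Y) + (MN N - Y) = 0 := by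
      rw [Dt_sub]
      linear_combination h4 - key2
    have h6 := congrArg (coeff n) h5
    rw [map_add, map_zero] at h6
    have h7 : coeff n (2 * Dt (MN N - Y)) = 2 * (n * coeff n (MN N - Y)) := by
      have : (2 : PowerSeries ℚ) = C (2 : ℚ) := by rw [map_ofNat]
      rw [this, coeff_C_mul, coeff_Dt]
    rw [h7] at h6
    have h8 : (2 * (n : ℚ) + 1) * coeff n (MN N - Y) = 0 := by linear_combination h6
    rcases mul_eq_zero.mp h8 with h9 | h9
    · exfalso
      have : (0 : ℚ) ≤ n := Nat.cast_nonneg n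
      linarith
    · exact h9
  have : MN N - Y = 0 := by
    ext n; rw [hdiff n, map_zero]
  exact sub_eq_zero.mp this

end

end Pool.Agent.H63.Quad
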